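import Pool.Agent.Q39.EB.Defs

namespace Pool.Agent.Q39.EB

open Matrix Finset

variable {m₁ m₂ : ℕ}

theorem Vm_apply (θ : Fin 3 → ℝ) (p q : Fin m₁ × Fin m₂) :
    Vm m₁ m₂ θ p q = θ 0 * (if p = q then 1 else 0) + θ 1 * (if p.1 = q.1 then 1 else 0)
      + θ 2 * (if p.2 = q.2 then 1 else 0) := by
  simp only [Vm, Gm, Zm, Matrix.add_apply, Matrix.smul_apply, Matrix.one_apply, smul_eq_mul,
    Matrix.mul_apply, Matrix.transpose_apply, Matrix.of_apply, Matrix.diagonal_apply,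
    Fintype.sum_sum_type, Sum.elim_inl, Sum.elim_inr]
  simp [eq_comm]
  ring

theorem Vm_mulVec (θ : Fin 3 → ℝ) (w : Fin m₁ × Fin m₂ → ℝ) (p : Fin m₁ × Fin m₂) :
    (Vm m₁ m₂ θ *ᵥ w) p = θ 0 * w p + θ 1 * ∑ j, w (p.1, j) + θ 2 * ∑ i, w (i, p.2) := by
  obtain ⟨i, j⟩ := p
  simp only [Matrix.mulVec, dotProduct, Vm_apply, add_mul, Finset.sum_add_distrib]
  congr 1
  · congr 1
    · simp [mul_assoc]
    · rw [Fintype.sum_prod_type]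
      simp [mul_assoc, Finset.mul_sum]
  · rw [Fintype.sum_prod_type]
    simp [mul_assoc, Finset.mul_sum]

/-- row effect -/
noncomputable def R (y : Fin m₁ × Fin m₂ → ℝ) (i : Fin m₁) : ℝ := (∑ j, y (i, j)) / m₂ - gmean y

/-- column effect -/
noncomputable def C (y : Fin m₁ × Fin m₂ → ℝ) (j : Fin m₂) : ℝ := (∑ i, y (i, j)) / m₁ - gmean y

/-- residual -/
noncomputable def E (y : Fin m₁ × Fin m₂ → ℝ) (p : Fin m₁ × Fin m₂) : ℝ :=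
  y p - R y p.1 - C y p.2 - gmean y

theorem sum_R (h1 : (m₁ : ℝ) ≠ 0) (h2 : (m₂ : ℝ) ≠ 0) (y : Fin m₁ × Fin m₂ → ℝ) :
    ∑ i, R y i = 0 := by
  simp only [R, Finset.sum_sub_distrib, ← Finset.sum_div, gmean, Finset.sum_const, Finset.card_univ,
    Fintype.card_fin, nsmul_eq_mul]
  field_simp
  ring

theorem sum_C (h1 : (m₁ : ℝ) ≠ 0) (h2 : (m₂ : ℝ) ≠ 0) (y : Fin m₁ × Fin m₂ → ℝ) :
    ∑ j, C y j = 0 := by
  simp only [C, Finset.sum_sub_distrib, ← Finset.sum_div, gmean, Finset.sum_const, Finset.card_univ,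
    Fintype.card_fin, nsmul_eq_mul]
  rw [Finset.sum_comm]
  field_simp
  ring

theorem sum_E_row (h1 : (m₁ : ℝ) ≠ 0) (h2 : (m₂ : ℝ) ≠ 0) (y : Fin m₁ × Fin m₂ → ℝ) (i : Fin m₁) :
    ∑ j, E y (i, j) = 0 := by
  have h := sum_C h1 h2 y
  simp only [E, Finset.sum_sub_distrib, Finset.sum_const, Finset.card_univ,
    Fintype.card_fin, nsmul_eq_mul, h, R]
  field_simp
  ring

theorem sum_E_col (h1 : (m₁ : ℝ) ≠ 0) (h2 : (m₂ : ℝ) ≠ 0) (y : Fin m₁ × Fin m₂ → ℝ) (j : Fin m₂) :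
    ∑ i, E y (i, j) = 0 := by
  have h := sum_R h1 h2 y
  simp only [E, Finset.sum_sub_distrib, Finset.sum_const, Finset.card_univ,
    Fintype.card_fin, nsmul_eq_mul, h, C]
  field_simp
  ring

/-- the four eigenvalues -/
def l0 (θ : Fin 3 → ℝ) : ℝ := θ 0
def l1 (m₂ : ℕ) (θ : Fin 3 → ℝ) : ℝ := θ 0 + m₂ * θ 1
def l2 (m₁ : ℕ) (θ : Fin 3 → ℝ) : ℝ := θ 0 + m₁ * θ 2
def l3 (m₁ m₂ : ℕ) (θ : Fin 3 → ℝ) : ℝ := θ 0 + m₂ * θ 1 + m₁ * θ 2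

/-- the explicit inverse -/
noncomputable def W (θ : Fin 3 → ℝ) (y : Fin m₁ × Fin m₂ → ℝ) (p : Fin m₁ × Fin m₂) : ℝ :=
  gmean y / l3 m₁ m₂ θ + R y p.1 / l1 m₂ θ + C y p.2 / l2 m₁ θ + E y p / l0 θ

theorem pos_l {θ : Fin 3 → ℝ} (hθ : ∀ k, 0 < θ k) :
    0 < l0 θ ∧ 0 < l1 m₂ θ ∧ 0 < l2 m₁ θ ∧ 0 < l3 m₁ m₂ θ := by
  have h0 := hθ 0
  have h1 := hθ 1
  have h2 := hθ 2
  refine ⟨h0, ?_, ?_, ?_⟩ <;> simp only [l1, l2, l3] <;> positivity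

theorem Vm_W (h1 : (m₁ : ℝ) ≠ 0) (h2 : (m₂ : ℝ) ≠ 0) {θ : Fin 3 → ℝ} (hθ : ∀ k, 0 < θ k)
    (y : Fin m₁ × Fin m₂ → ℝ) : Vm m₁ m₂ θ *ᵥ W θ y = y := by
  obtain ⟨p0, p1, p2, p3⟩ := pos_l (m₁ := m₁) (m₂ := m₂) hθ
  funext p
  obtain ⟨i, j⟩ := p
  rw [Vm_mulVec]
  have e1 : ∑ j', W θ y (i, j') = m₂ * (gmean y / l3 m₁ m₂ θ + R y i / l1 m₂ θ) := by
    simp only [W, Finset.sum_add_distrib, ← Finset.sum_div, sum_C h1 h2, sum_E_row h1 h2,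
      Finset.sum_const, Finset.card_univ, Fintype.card_fin, nsmul_eq_mul]
    ring
  have e2 : ∑ i', W θ y (i', j) = m₁ * (gmean y / l3 m₁ m₂ θ + C y j / l2 m₁ θ) := by
    simp only [W, Finset.sum_add_distrib, ← Finset.sum_div, sum_R h1 h2, sum_E_col h1 h2,
      Finset.sum_const, Finset.card_univ, Fintype.card_fin, nsmul_eq_mul]
    ring
  simp only [e1, e2]
  have hy : y (i, j) = gmean y + R y i + C y j + E y (i, j) := by simp only [E]; ring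
  conv_rhs => rw [hy]
  simp only [W]
  have q0 : θ 0 = l0 θ := rfl
  have f1 : gmean y * (l0 θ + m₂ * θ 1 + m₁ * θ 2) / l3 m₁ m₂ θ = gmean y := by
    have : l0 θ + m₂ * θ 1 + m₁ * θ 2 = l3 m₁ m₂ θ := rfl
    rw [this, mul_div_assoc, div_self p3.ne', mul_one]
  have f2 : R y i * (l0 θ + m₂ * θ 1) / l1 m₂ θ = R y i := by
    have : l0 θ + m₂ * θ 1 = l1 m₂ θ := rfl
    rw [this, mul_div_assoc, div_self p1.ne', mul_one]
  have f3 : C y j * (l0 θ + m₁ * θ 2) / l2 m₁ θ = C y j := by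
    have : l0 θ + m₁ * θ 2 = l2 m₁ θ := rfl
    rw [this, mul_div_assoc, div_self p2.ne', mul_one]
  have f4 : E y (i, j) * l0 θ / l0 θ = E y (i, j) := by
    rw [mul_div_assoc, div_self p0.ne', mul_one]
  rw [q0]
  calc _ = gmean y * (l0 θ + m₂ * θ 1 + m₁ * θ 2) / l3 m₁ m₂ θ
        + R y i * (l0 θ + m₂ * θ 1) / l1 m₂ θ + C y j * (l0 θ + m₁ * θ 2) / l2 m₁ θ
        + E y (i, j) * l0 θ / l0 θ := by ring
    _ = _ := by rw [f1, f2, f3, f4]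

theorem isUnit_Vm (h1 : (m₁ : ℝ) ≠ 0) (h2 : (m₂ : ℝ) ≠ 0) {θ : Fin 3 → ℝ} (hθ : ∀ k, 0 < θ k) :
    IsUnit (Vm m₁ m₂ θ) :=
  Matrix.mulVec_surjective_iff_isUnit.1 fun y => ⟨W θ y, Vm_W h1 h2 hθ y⟩

theorem Vm_inv_mulVec (h1 : (m₁ : ℝ) ≠ 0) (h2 : (m₂ : ℝ) ≠ 0) {θ : Fin 3 → ℝ}
    (hθ : ∀ k, 0 < θ k) (y : Fin m₁ × Fin m₂ → ℝ) : (Vm m₁ m₂ θ)⁻¹ *ᵥ y = W θ y := by
  have h := isUnit_Vm h1 h2 hθ
  conv_lhs => rw [← Vm_W h1 h2 hθ y]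
  rw [Matrix.mulVec_mulVec, Matrix.nonsing_inv_mul _ ((Matrix.isUnit_iff_isUnit_det _).1 h),
    Matrix.one_mulVec]

/-- sums of squares -/
noncomputable def Q0 (y : Fin m₁ × Fin m₂ → ℝ) : ℝ := ∑ i, ∑ j, E y (i, j) ^ 2
noncomputable def Q1 (y : Fin m₁ × Fin m₂ → ℝ) : ℝ := m₂ * ∑ i, R y i ^ 2
noncomputable def Q2 (y : Fin m₁ × Fin m₂ → ℝ) : ℝ := m₁ * ∑ j, C y j ^ 2

theorem one_dot_W (h1 : (m₁ : ℝ) ≠ 0) (h2 : (m₂ : ℝ) ≠ 0) (θ : Fin 3 → ℝ)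
    (y : Fin m₁ × Fin m₂ → ℝ) :
    (fun _ => (1 : ℝ)) ⬝ᵥ W θ y = m₁ * m₂ * gmean y / l3 m₁ m₂ θ := by
  simp only [dotProduct, one_mul, W]
  rw [Fintype.sum_prod_type]
  simp only [Finset.sum_add_distrib, ← Finset.sum_div, sum_C h1 h2, sum_E_row h1 h2,
    Finset.sum_const, Finset.card_univ, Fintype.card_fin, nsmul_eq_mul, ← Finset.mul_sum,
    sum_R h1 h2]
  simp only [mul_zero, zero_div, add_zero]
  ring

theorem dot_W (h1 : (m₁ : ℝ) ≠ 0) (h2 : (m₂ : ℝ) ≠ 0) (θ : Fin 3 → ℝ)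
    (y : Fin m₁ × Fin m₂ → ℝ) :
    y ⬝ᵥ W θ y = m₁ * m₂ * gmean y ^ 2 / l3 m₁ m₂ θ + Q1 y / l1 m₂ θ + Q2 y / l2 m₁ θ
      + Q0 y / l0 θ := by
  have hy : ∀ i j, y (i, j) = gmean y + R y i + C y j + E y (i, j) := by
    intro i j; simp only [E]; ring
  simp only [dotProduct]
  rw [Fintype.sum_prod_type]
  have key : ∀ i, ∑ j, y (i, j) * W θ y (i, j) =
      m₂ * ((gmean y + R y i) * (gmean y / l3 m₁ m₂ θ + R y i / l1 m₂ θ))
        + (∑ j, C y j ^ 2) / l2 m₁ θ + (∑ j, E y (i, j) ^ 2) / l0 θ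
        + (∑ j, C y j * E y (i, j)) * (1 / l0 θ + 1 / l2 m₁ θ) := by
    intro i
    have e1 : ∀ j, y (i, j) * W θ y (i, j) =
        (gmean y + R y i) * (gmean y / l3 m₁ m₂ θ + R y i / l1 m₂ θ)
        + C y j * ((gmean y + R y i) / l2 m₁ θ + (gmean y / l3 m₁ m₂ θ + R y i / l1 m₂ θ))
        + E y (i, j) * ((gmean y + R y i) / l0 θ + (gmean y / l3 m₁ m₂ θ + R y i / l1 m₂ θ))
        + C y j ^ 2 / l2 m₁ θ + E y (i, j) ^ 2 / l0 θ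
        + (C y j * E y (i, j)) * (1 / l0 θ + 1 / l2 m₁ θ) := by
      intro j
      rw [hy i j]
      simp only [W]
      ring
    simp only [e1, Finset.sum_add_distrib, ← Finset.sum_mul, ← Finset.sum_div, sum_C h1 h2,
      sum_E_row h1 h2, Finset.sum_const, Finset.card_univ, Fintype.card_fin, nsmul_eq_mul]
    ring
  simp only [key, Finset.sum_add_distrib]
  have e2 : ∑ i, ∑ j, C y j * E y (i, j) = 0 := by
    rw [Finset.sum_comm]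
    simp only [← Finset.mul_sum, sum_E_col h1 h2, mul_zero, Finset.sum_const_zero]
  rw [← Finset.sum_mul, e2, zero_mul, add_zero, ← Finset.sum_div]
  have e3 : ∑ i, (m₂ : ℝ) * ((gmean y + R y i) * (gmean y / l3 m₁ m₂ θ + R y i / l1 m₂ θ)) =
      m₁ * m₂ * gmean y ^ 2 / l3 m₁ m₂ θ + (m₂ * ∑ i, R y i ^ 2) / l1 m₂ θ := by
    have e4 : ∀ i, (m₂ : ℝ) * ((gmean y + R y i) * (gmean y / l3 m₁ m₂ θ + R y i / l1 m₂ θ)) =
        m₂ * gmean y ^ 2 / l3 m₁ m₂ θ + R y i * (m₂ * gmean y * (1 / l3 m₁ m₂ θ + 1 / l1 m₂ θ))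
        + (m₂ * R y i ^ 2) / l1 m₂ θ := by
      intro i; ring
    simp only [e4, Finset.sum_add_distrib, ← Finset.sum_mul, ← Finset.sum_div, sum_R h1 h2,
      Finset.sum_const, Finset.card_univ, Fintype.card_fin, nsmul_eq_mul, ← Finset.mul_sum]
    ring
  rw [e3]
  simp only [Finset.sum_const, Finset.card_univ, Fintype.card_fin, nsmul_eq_mul, Q0, Q1, Q2,
    ← Finset.sum_div]

/-! ### The determinant -/

theorem det_J (m : ℕ) {c d : ℝ} (hc : c ≠ 0) :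
    (c • (1 : Matrix (Fin m) (Fin m) ℝ) + d • Matrix.of fun _ _ => (1 : ℝ)).det
      = c ^ m * (1 + m * d / c) := by
  have e : c • (1 : Matrix (Fin m) (Fin m) ℝ) + d • (Matrix.of fun _ _ => (1 : ℝ)) =
      c • (1 + Matrix.replicateCol Unit (fun _ : Fin m => d / c) *
        Matrix.replicateRow Unit (fun _ : Fin m => (1 : ℝ))) := by
    ext i j
    simp only [Matrix.add_apply, Matrix.smul_apply, Matrix.of_apply, smul_eq_mul, Matrix.mul_apply,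
      Matrix.replicateCol_apply, Matrix.replicateRow_apply, Finset.univ_unique,
      Finset.sum_singleton]
    field_simp
  rw [e, Matrix.det_smul, Matrix.det_one_add_replicateCol_mul_replicateRow]
  simp only [Fintype.card_fin, dotProduct, one_mul, Finset.sum_const, Finset.card_univ,
    nsmul_eq_mul]
  ring

theorem det_Vm (h1 : m₁ ≠ 0) {θ : Fin 3 → ℝ} (hθ : ∀ k, 0 < θ k) :
    (Vm m₁ m₂ θ).det * (θ 0 ^ m₂ * (1 + m₂ * θ 1 / θ 0)) =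
      (θ 0 ^ m₂ * (1 + m₂ * θ 1 / θ 0)) ^ m₁ *
        ((l2 m₁ θ) ^ m₂ * (1 + m₂ * θ 1 / l2 m₁ θ)) := by
  obtain ⟨p0, p1, p2, p3⟩ := pos_l (m₁ := m₁) (m₂ := m₂) hθ
  set B : Matrix (Fin m₂) (Fin m₂) ℝ := θ 0 • 1 + θ 1 • Matrix.of fun _ _ => (1 : ℝ) with hB
  have dB : B.det = θ 0 ^ m₂ * (1 + m₂ * θ 1 / θ 0) := det_J m₂ (hθ 0).ne'
  have hq : (0 : ℝ) < 1 + m₂ * θ 1 / θ 0 := by
    have := hθ 0
    have := hθ 1
    positivity
  have dB0 : B.det ≠ 0 := by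
    rw [dB]
    have := hθ 0
    positivity
  have uB : IsUnit B.det := isUnit_iff_ne_zero.2 dB0
  let U : Matrix (Fin m₁ × Fin m₂) (Fin m₂) ℝ := Matrix.of fun p j => if p.2 = j then 1 else 0
  let X : Matrix (Fin m₂) (Fin m₁ × Fin m₂) ℝ := Matrix.of fun j p => θ 2 * B⁻¹ j p.2
  have eV : Vm m₁ m₂ θ = (Matrix.kroneckerMap (· * ·) (1 : Matrix (Fin m₁) (Fin m₁) ℝ) B) *
      (1 + U * X) := by
    rw [Matrix.mul_add, Matrix.mul_one, ← Matrix.mul_assoc]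
    ext ⟨i, j⟩ ⟨i', j'⟩
    rw [Vm_apply]
    have e1 : ∀ j'', ((Matrix.kroneckerMap (· * ·) (1 : Matrix (Fin m₁) (Fin m₁) ℝ) B) * U)
        (i, j) j'' = B j j'' := by
      intro j''
      simp only [Matrix.mul_apply, Matrix.kroneckerMap_apply, U, Matrix.of_apply]
      rw [Fintype.sum_prod_type]
      simp [Matrix.one_apply]
    have e2 : (((Matrix.kroneckerMap (· * ·) (1 : Matrix (Fin m₁) (Fin m₁) ℝ) B) * U) * X)
        (i, j) (i', j') = θ 2 * (if j = j' then 1 else 0) := by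
      rw [Matrix.mul_apply]
      simp only [e1, X, Matrix.of_apply]
      have e3 : ∑ x, B j x * (θ 2 * B⁻¹ x j') = θ 2 * (B * B⁻¹) j j' := by
        rw [Matrix.mul_apply, Finset.mul_sum]
        exact Finset.sum_congr rfl fun x _ => by ring
      rw [e3, Matrix.mul_nonsing_inv _ uB, Matrix.one_apply]
    rw [Matrix.add_apply, e2]
    simp only [Matrix.kroneckerMap_apply, hB, Matrix.add_apply, Matrix.smul_apply,
      Matrix.one_apply, Matrix.of_apply, smul_eq_mul, Prod.mk.injEq]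
    by_cases hi : i = i' <;> by_cases hj : j = j' <;> simp [hi, hj]
  have e4 : X * U = (m₁ : ℝ) • (θ 2 • B⁻¹) := by
    ext j j'
    simp only [Matrix.mul_apply, X, U, Matrix.of_apply, Matrix.smul_apply, smul_eq_mul]
    rw [Fintype.sum_prod_type]
    simp
  have e5 : (1 + X * U).det * B.det = (l2 m₁ θ) ^ m₂ * (1 + m₂ * θ 1 / l2 m₁ θ) := by
    rw [← Matrix.det_mul, e4, Matrix.add_mul, Matrix.one_mul, Matrix.smul_mul, Matrix.smul_mul,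
      Matrix.nonsing_inv_mul _ uB, ← det_J m₂ p2.ne']
    congr 1
    ext j j'
    simp only [hB, Matrix.add_apply, Matrix.smul_apply, smul_eq_mul, Matrix.of_apply, l2]
    ring
  rw [eV, Matrix.det_mul, Matrix.det_kronecker, Matrix.det_one, one_pow, one_mul,
    Matrix.det_one_add_mul_comm, Fintype.card_fin, mul_assoc, ← dB, e5]

theorem log_det (h1 : m₁ ≠ 0) (h2 : m₂ ≠ 0) {θ : Fin 3 → ℝ} (hθ : ∀ k, 0 < θ k) :
    Real.log (Vm m₁ m₂ θ).det =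
      ((m₁ : ℝ) - 1) * ((m₂ : ℝ) - 1) * Real.log (l0 θ) + ((m₁ : ℝ) - 1) * Real.log (l1 m₂ θ)
        + ((m₂ : ℝ) - 1) * Real.log (l2 m₁ θ) + Real.log (l3 m₁ m₂ θ) := by
  obtain ⟨p0, p1, p2, p3⟩ := pos_l (m₁ := m₁) (m₂ := m₂) hθ
  have h := det_Vm (m₂ := m₂) h1 hθ
  have q1 : (1 : ℝ) + m₂ * θ 1 / θ 0 = l1 m₂ θ / l0 θ := by
    simp only [l1, l0]
    have := (hθ 0).ne'
    field_simp
  have q2 : (1 : ℝ) + m₂ * θ 1 / l2 m₁ θ = l3 m₁ m₂ θ / l2 m₁ θ := by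
    have : l3 m₁ m₂ θ = l2 m₁ θ + m₂ * θ 1 := by simp only [l3, l2]; ring
    rw [this, add_div, div_self p2.ne']
  rw [q1, q2, show θ 0 = l0 θ from rfl] at h
  have hd : (Vm m₁ m₂ θ).det ≠ 0 := by
    intro h0
    rw [h0, zero_mul] at h
    have : (0 : ℝ) < (l0 θ ^ m₂ * (l1 m₂ θ / l0 θ)) ^ m₁ * (l2 m₁ θ ^ m₂ * (l3 m₁ m₂ θ / l2 m₁ θ)) := by
      positivity
    linarith
  have h' := congrArg Real.log h
  have n0 : l0 θ ^ m₂ ≠ 0 := by positivity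
  have n1 : l1 m₂ θ / l0 θ ≠ 0 := by positivity
  have n2 : l2 m₁ θ ^ m₂ ≠ 0 := by positivity
  have n3 : l3 m₁ m₂ θ / l2 m₁ θ ≠ 0 := by positivity
  rw [Real.log_mul hd (mul_ne_zero n0 n1), Real.log_mul (pow_ne_zero _ (mul_ne_zero n0 n1))
    (mul_ne_zero n2 n3), Real.log_pow, Real.log_mul n0 n1, Real.log_mul n2 n3, Real.log_pow,
    Real.log_pow, Real.log_div p1.ne' p0.ne', Real.log_div p3.ne' p2.ne'] at h'
  linear_combination h'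

/-- the closed form of the restricted likelihood -/
noncomputable def Lf (m₁ m₂ : ℕ) (q0 q1 q2 : ℝ) (θ : Fin 3 → ℝ) : ℝ :=
  -(1 / 2) * (((m₁ : ℝ) - 1) * ((m₂ : ℝ) - 1) * Real.log (l0 θ)
    + ((m₁ : ℝ) - 1) * Real.log (l1 m₂ θ)
    + ((m₂ : ℝ) - 1) * Real.log (l2 m₁ θ) + Real.log ((m₁ : ℝ) * m₂)
    + q0 / l0 θ + q1 / l1 m₂ θ + q2 / l2 m₁ θ)

theorem reml_eq (h1 : m₁ ≠ 0) (h2 : m₂ ≠ 0) {θ : Fin 3 → ℝ} (hθ : ∀ k, 0 < θ k)
    (y : Fin m₁ × Fin m₂ → ℝ) : reml y θ = Lf m₁ m₂ (Q0 y) (Q1 y) (Q2 y) θ := by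
  obtain ⟨p0, p1, p2, p3⟩ := pos_l (m₁ := m₁) (m₂ := m₂) hθ
  have k1 : (m₁ : ℝ) ≠ 0 := by exact_mod_cast h1
  have k2 : (m₂ : ℝ) ≠ 0 := by exact_mod_cast h2
  have g1 : gmean (fun _ : Fin m₁ × Fin m₂ => (1 : ℝ)) = 1 := by
    simp only [gmean, Finset.sum_const, Finset.card_univ, Fintype.card_fin, nsmul_eq_mul, mul_one]
    field_simp
  unfold reml Lf
  rw [Vm_inv_mulVec k1 k2 hθ, Vm_inv_mulVec k1 k2 hθ, one_dot_W k1 k2, one_dot_W k1 k2,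
    dot_W k1 k2, log_det h1 h2 hθ, g1, mul_one, Real.log_div (mul_ne_zero k1 k2) p3.ne']
  have e : ((m₁ : ℝ) * m₂ * gmean y / l3 m₁ m₂ θ) ^ 2 / (m₁ * m₂ / l3 m₁ m₂ θ) =
      m₁ * m₂ * gmean y ^ 2 / l3 m₁ m₂ θ := by
    field_simp
  rw [e]
  ring

theorem R_sub (k1 : (m₁ : ℝ) ≠ 0) (k2 : (m₂ : ℝ) ≠ 0) (y : Fin m₁ × Fin m₂ → ℝ) (c : ℝ)
    (i : Fin m₁) : R (fun p => y p - c) i = R y i := by
  simp only [R, gmean, Finset.sum_sub_distrib, Finset.sum_const, Finset.card_univ,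
    Fintype.card_fin, nsmul_eq_mul]
  field_simp
  ring

theorem C_sub (k1 : (m₁ : ℝ) ≠ 0) (k2 : (m₂ : ℝ) ≠ 0) (y : Fin m₁ × Fin m₂ → ℝ) (c : ℝ)
    (j : Fin m₂) : C (fun p => y p - c) j = C y j := by
  simp only [C, gmean, Finset.sum_sub_distrib, Finset.sum_const, Finset.card_univ,
    Fintype.card_fin, nsmul_eq_mul]
  field_simp
  ring

/-- the closed form of the BLUP -/
theorem blup_eq (h1 : m₁ ≠ 0) (h2 : m₂ ≠ 0) {θ : Fin 3 → ℝ} (hθ : ∀ k, 0 < θ k)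
    (a₀ : ℝ) (a₁ : Fin m₁ → ℝ) (a₂ : Fin m₂ → ℝ) (y : Fin m₁ × Fin m₂ → ℝ) :
    blup a₀ a₁ a₂ y θ = a₀ * gmean y + (1 - l0 θ / l1 m₂ θ) * (∑ i, a₁ i * R y i)
      + (1 - l0 θ / l2 m₁ θ) * (∑ j, a₂ j * C y j) := by
  obtain ⟨p0, p1, p2, p3⟩ := pos_l (m₁ := m₁) (m₂ := m₂) hθ
  have k1 : (m₁ : ℝ) ≠ 0 := by exact_mod_cast h1
  have k2 : (m₂ : ℝ) ≠ 0 := by exact_mod_cast h2
  unfold blup
  have g0 : gmean (fun p => y p - gmean y) = 0 := by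
    simp only [gmean, Finset.sum_sub_distrib, Finset.sum_const, Finset.card_univ,
      Fintype.card_fin, nsmul_eq_mul]
    field_simp
    ring
  rw [← Matrix.mulVec_mulVec, Vm_inv_mulVec k1 k2 hθ, ← Matrix.mulVec_mulVec]
  have eZ : ∀ w : Fin m₁ × Fin m₂ → ℝ, (Zm m₁ m₂)ᵀ *ᵥ w =
      Sum.elim (fun i => ∑ j, w (i, j)) (fun j => ∑ i, w (i, j)) := by
    intro w
    funext t
    rcases t with i | j
    · simp only [Matrix.mulVec, dotProduct, Matrix.transpose_apply, Zm, Matrix.of_apply,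
        Sum.elim_inl]
      rw [Fintype.sum_prod_type]
      simp
    · simp only [Matrix.mulVec, dotProduct, Matrix.transpose_apply, Zm, Matrix.of_apply,
        Sum.elim_inr]
      rw [Fintype.sum_prod_type]
      simp
  have eG : ∀ x : Fin m₁ ⊕ Fin m₂ → ℝ, Sum.elim a₁ a₂ ⬝ᵥ (Gm m₁ m₂ θ *ᵥ x) =
      θ 1 * (∑ i, a₁ i * x (Sum.inl i)) + θ 2 * (∑ j, a₂ j * x (Sum.inr j)) := by
    intro x
    simp only [Gm, dotProduct, Matrix.mulVec_diagonal, Fintype.sum_sum_type, Sum.elim_inl,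
      Sum.elim_inr, Finset.mul_sum]
    congr 1 <;> exact Finset.sum_congr rfl fun _ _ => by ring
  rw [eZ, eG]
  simp only [Sum.elim_inl, Sum.elim_inr]
  have e1 : ∀ i, ∑ j, W θ (fun p => y p - gmean y) (i, j) = m₂ * (R y i / l1 m₂ θ) := by
    intro i
    simp only [W, Finset.sum_add_distrib, ← Finset.sum_div, sum_C k1 k2, sum_E_row k1 k2,
      Finset.sum_const, Finset.card_univ, Fintype.card_fin, nsmul_eq_mul, g0, R_sub k1 k2]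
    ring
  have e2 : ∀ j, ∑ i, W θ (fun p => y p - gmean y) (i, j) = m₁ * (C y j / l2 m₁ θ) := by
    intro i
    simp only [W, Finset.sum_add_distrib, ← Finset.sum_div, sum_R k1 k2, sum_E_col k1 k2,
      Finset.sum_const, Finset.card_univ, Fintype.card_fin, nsmul_eq_mul, g0, C_sub k1 k2]
    ring
  simp only [e1, e2]
  have e3 : θ 1 * ∑ i, a₁ i * (m₂ * (R y i / l1 m₂ θ)) =
      (1 - l0 θ / l1 m₂ θ) * (∑ i, a₁ i * R y i) := by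
    have : 1 - l0 θ / l1 m₂ θ = m₂ * θ 1 / l1 m₂ θ := by
      rw [eq_div_iff p1.ne', sub_mul, div_mul_cancel₀ _ p1.ne', one_mul]
      simp only [l1, l0]; ring
    rw [this, Finset.mul_sum, Finset.mul_sum]
    exact Finset.sum_congr rfl fun _ _ => by ring
  have e4 : θ 2 * ∑ j, a₂ j * (m₁ * (C y j / l2 m₁ θ)) =
      (1 - l0 θ / l2 m₁ θ) * (∑ j, a₂ j * C y j) := by
    have : 1 - l0 θ / l2 m₁ θ = m₁ * θ 2 / l2 m₁ θ := by
      rw [eq_div_iff p2.ne', sub_mul, div_mul_cancel₀ _ p2.ne', one_mul]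
      simp only [l2, l0]; ring
    rw [this, Finset.mul_sum, Finset.mul_sum]
    exact Finset.sum_congr rfl fun _ _ => by ring
  rw [e3, e4]
  ring

end Pool.Agent.Q39.EB
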