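import Pool.Agent.Q39.EB.Exp

namespace Pool.Agent.Q39.EB

open Finset MeasureTheory ProbabilityTheory

variable {m₁ m₂ : ℕ}

/-! ### Deterministic bounds of the sums of squares -/

theorem R_obs (k1 : (m₁ : ℝ) ≠ 0) (k2 : (m₂ : ℝ) ≠ 0) (μ : ℝ) (u : Fin m₁ → ℝ) (v : Fin m₂ → ℝ)
    (e : Fin m₁ × Fin m₂ → ℝ) (i : Fin m₁) :
    R (obs μ u v e) i = (u i + (∑ j, e (i, j)) / m₂)
      - (∑ i, (u i + (∑ j, e (i, j)) / m₂)) / m₁ := by
  simp only [R, obs, gmean, Finset.sum_add_distrib, Finset.sum_const, Finset.card_univ,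
    Fintype.card_fin, nsmul_eq_mul, ← Finset.mul_sum, ← Finset.sum_div]
  field_simp
  ring

theorem C_obs (k1 : (m₁ : ℝ) ≠ 0) (k2 : (m₂ : ℝ) ≠ 0) (μ : ℝ) (u : Fin m₁ → ℝ) (v : Fin m₂ → ℝ)
    (e : Fin m₁ × Fin m₂ → ℝ) (j : Fin m₂) :
    C (obs μ u v e) j = (v j + (∑ i, e (i, j)) / m₁)
      - (∑ j, (v j + (∑ i, e (i, j)) / m₁)) / m₂ := by
  simp only [C, obs, gmean, Finset.sum_add_distrib, Finset.sum_const, Finset.card_univ,
    Fintype.card_fin, nsmul_eq_mul, ← Finset.mul_sum, ← Finset.sum_div]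
  rw [Finset.sum_comm (f := fun i j => e (i, j))]
  field_simp
  ring

theorem avg_sq {m : ℕ} (hm : 0 < m) (x : Fin m → ℝ) :
    ((∑ i, x i) / m) ^ 2 ≤ (∑ i, x i ^ 2) / m := by
  have h := sum_div_card_sq_le_sum_sq_div_card (s := (Finset.univ : Finset (Fin m))) (f := x)
  simpa using h

theorem sum_R_sq (hm1 : 0 < m₁) (hm2 : 0 < m₂) (μ : ℝ) (u : Fin m₁ → ℝ) (v : Fin m₂ → ℝ)
    (e : Fin m₁ × Fin m₂ → ℝ) :
    ∑ i, R (obs μ u v e) i ^ 2 ≤ 2 * ∑ i, u i ^ 2 + 2 * ((∑ p, e p ^ 2) / m₂) := by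
  have k1 : (m₁ : ℝ) ≠ 0 := by exact_mod_cast hm1.ne'
  have k2 : (m₂ : ℝ) ≠ 0 := by exact_mod_cast hm2.ne'
  simp only [R_obs k1 k2]
  refine (sum_centred_sq k1 _).trans ?_
  have e1 : ∀ i, (u i + (∑ j, e (i, j)) / m₂) ^ 2 ≤ 2 * u i ^ 2 + 2 * ((∑ j, e (i, j) ^ 2) / m₂) := by
    intro i
    have := avg_sq hm2 (fun j => e (i, j))
    nlinarith [sq_nonneg (u i - (∑ j, e (i, j)) / m₂)]
  refine (Finset.sum_le_sum fun i _ => e1 i).trans (le_of_eq ?_)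
  rw [Finset.sum_add_distrib, ← Finset.mul_sum, ← Finset.mul_sum, ← Finset.sum_div,
    Fintype.sum_prod_type]

theorem sum_C_sq (hm1 : 0 < m₁) (hm2 : 0 < m₂) (μ : ℝ) (u : Fin m₁ → ℝ) (v : Fin m₂ → ℝ)
    (e : Fin m₁ × Fin m₂ → ℝ) :
    ∑ i, C (obs μ u v e) i ^ 2 ≤ 2 * ∑ i, v i ^ 2 + 2 * ((∑ p, e p ^ 2) / m₁) := by
  have k1 : (m₁ : ℝ) ≠ 0 := by exact_mod_cast hm1.ne'
  have k2 : (m₂ : ℝ) ≠ 0 := by exact_mod_cast hm2.ne'
  simp only [C_obs k1 k2]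
  refine (sum_centred_sq k2 _).trans ?_
  have e1 : ∀ i, (v i + (∑ j, e (j, i)) / m₁) ^ 2 ≤ 2 * v i ^ 2 + 2 * ((∑ j, e (j, i) ^ 2) / m₁) := by
    intro i
    have := avg_sq hm1 (fun j => e (j, i))
    nlinarith [sq_nonneg (v i - (∑ j, e (j, i)) / m₁)]
  refine (Finset.sum_le_sum fun i _ => e1 i).trans (le_of_eq ?_)
  rw [Finset.sum_add_distrib, ← Finset.mul_sum, ← Finset.mul_sum, ← Finset.sum_div,
    Fintype.sum_prod_type_right]

theorem sum_E_sq (hm1 : 0 < m₁) (hm2 : 0 < m₂) (μ : ℝ) (u : Fin m₁ → ℝ) (v : Fin m₂ → ℝ)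
    (e : Fin m₁ × Fin m₂ → ℝ) : Q0 (obs μ u v e) ≤ ∑ p, e p ^ 2 := by
  have k1 : (m₁ : ℝ) ≠ 0 := by exact_mod_cast hm1.ne'
  have k2 : (m₂ : ℝ) ≠ 0 := by exact_mod_cast hm2.ne'
  have e0 : ∀ i j, E (obs μ u v e) (i, j) =
      (e (i, j) - (∑ i', e (i', j)) / m₁) - (∑ j', (e (i, j') - (∑ i', e (i', j')) / m₁)) / m₂ := by
    intro i j
    rw [E_obs k1 k2, Fintype.sum_prod_type]
    have : ∀ i', ∑ j', (cen m₁ i i' * cen m₂ j j') * e (i', j') =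
        cen m₁ i i' * ∑ j', cen m₂ j j' * e (i', j') := by
      intro i'
      rw [Finset.mul_sum]
      exact Finset.sum_congr rfl fun _ _ => by ring
    simp only [this, sum_cen_mul]
    simp only [Finset.sum_sub_distrib, ← Finset.sum_div]
    rw [Finset.sum_comm (f := fun i j => e (i, j))]
    ring
  simp only [Q0, e0]
  have e1 : ∀ i : Fin m₁, ∑ j, ((e (i, j) - (∑ i', e (i', j)) / m₁)
      - (∑ j', (e (i, j') - (∑ i', e (i', j')) / m₁)) / m₂) ^ 2 ≤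
      ∑ j, (e (i, j) - (∑ i', e (i', j)) / m₁) ^ 2 :=
    fun i => sum_centred_sq k2 (fun j => e (i, j) - (∑ i', e (i', j)) / m₁)
  refine (Finset.sum_le_sum fun i _ => e1 i).trans ?_
  rw [Finset.sum_comm, Fintype.sum_prod_type_right]
  exact Finset.sum_le_sum fun j _ => sum_centred_sq k1 (fun i => e (i, j))

/-- average of squares, fourth power -/
theorem avg_pow4 {T : Type} [Fintype T] [Nonempty T] (x : T → ℝ) :
    ((∑ t, x t ^ 2) / Fintype.card T) ^ 4 ≤ (∑ t, x t ^ 8) / Fintype.card T := by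
  have h := pow_sum_div_card_le_sum_pow (s := (Finset.univ : Finset T)) (f := fun t => x t ^ 2)
    (fun _ _ => sq_nonneg _) 3
  have hc : (0 : ℝ) < Fintype.card T := by exact_mod_cast Fintype.card_pos
  rw [Finset.card_univ] at h
  have e : ∑ t, (x t ^ 2) ^ (3 + 1) = ∑ t, x t ^ 8 :=
    Finset.sum_congr rfl fun t _ => by rw [← pow_mul]
  rw [e] at h
  rw [le_div_iff₀ hc]
  calc ((∑ t, x t ^ 2) / Fintype.card T) ^ 4 * Fintype.card T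
      = (∑ t, x t ^ 2) ^ (3 + 1) / (Fintype.card T : ℝ) ^ 3 := by
        field_simp
    _ ≤ _ := h

end Pool.Agent.Q39.EB
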