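import Mathlib

/-!
# The two way crossed random effects model: BLUP, Gaussian REML log-likelihood and `g₃`
-/

namespace Pool.Agent.Q39.EB

open Matrix Finset MeasureTheory ProbabilityTheory

/-- The incidence matrix `Z = (I ⊗ 1, 1 ⊗ I)`. -/
def Zm (m₁ m₂ : ℕ) : Matrix (Fin m₁ × Fin m₂) (Fin m₁ ⊕ Fin m₂) ℝ :=
  Matrix.of fun p t =>
    Sum.elim (fun i => if p.1 = i then (1 : ℝ) else 0) (fun j => if p.2 = j then (1 : ℝ) else 0) t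

/-- `G = diag(σ₁² I, σ₂² I)`; `θ = (σ₀², σ₁², σ₂²)`. -/
def Gm (m₁ m₂ : ℕ) (θ : Fin 3 → ℝ) : Matrix (Fin m₁ ⊕ Fin m₂) (Fin m₁ ⊕ Fin m₂) ℝ :=
  Matrix.diagonal (Sum.elim (fun _ => θ 1) (fun _ => θ 2))

/-- `V = σ₀² I + Z G Z'`. -/
def Vm (m₁ m₂ : ℕ) (θ : Fin 3 → ℝ) : Matrix (Fin m₁ × Fin m₂) (Fin m₁ × Fin m₂) ℝ :=
  θ 0 • (1 : Matrix (Fin m₁ × Fin m₂) (Fin m₁ × Fin m₂) ℝ) +
    Zm m₁ m₂ * Gm m₁ m₂ θ * (Zm m₁ m₂)ᵀ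

/-- The grand mean. -/
noncomputable def gmean {m₁ m₂ : ℕ} (y : Fin m₁ × Fin m₂ → ℝ) : ℝ :=
  (∑ i, ∑ j, y (i, j)) / (m₁ * m₂)

/-- The BLUP of `a₀ μ + a₁' u + a₂' v` at `θ`. -/
noncomputable def blup {m₁ m₂ : ℕ} (a₀ : ℝ) (a₁ : Fin m₁ → ℝ) (a₂ : Fin m₂ → ℝ)
    (y : Fin m₁ × Fin m₂ → ℝ) (θ : Fin 3 → ℝ) : ℝ :=
  a₀ * gmean y +
    Sum.elim a₁ a₂ ⬝ᵥ (Gm m₁ m₂ θ * (Zm m₁ m₂)ᵀ * (Vm m₁ m₂ θ)⁻¹) *ᵥ (fun p => y p - gmean y)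

/-- The Gaussian restricted log-likelihood of `y` (up to an additive constant):
`-(log det V + log (1'V⁻¹1) + y'V⁻¹y - (1'V⁻¹y)² / (1'V⁻¹1)) / 2`. -/
noncomputable def reml {m₁ m₂ : ℕ} (y : Fin m₁ × Fin m₂ → ℝ) (θ : Fin 3 → ℝ) : ℝ :=
  -(1 / 2) * (Real.log (Vm m₁ m₂ θ).det
    + Real.log ((fun _ => (1 : ℝ)) ⬝ᵥ (Vm m₁ m₂ θ)⁻¹ *ᵥ (fun _ => (1 : ℝ)))
    + (y ⬝ᵥ (Vm m₁ m₂ θ)⁻¹ *ᵥ y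
      - ((fun _ => (1 : ℝ)) ⬝ᵥ (Vm m₁ m₂ θ)⁻¹ *ᵥ y) ^ 2
        / ((fun _ => (1 : ℝ)) ⬝ᵥ (Vm m₁ m₂ θ)⁻¹ *ᵥ (fun _ => (1 : ℝ)))))

/-- Partial derivative with respect to `θ_k`. -/
noncomputable def pd (k : Fin 3) (F : (Fin 3 → ℝ) → ℝ) (θ : Fin 3 → ℝ) : ℝ :=
  deriv (fun t => F (Function.update θ k t)) (θ k)

/-- `A = E (∂² l / ∂θ ∂θ')` for a random array `y`. -/
noncomputable def Amat {m₁ m₂ : ℕ} {Ω : Type} [MeasurableSpace Ω] (P : Measure Ω)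
    (y : Ω → Fin m₁ × Fin m₂ → ℝ) (θ : Fin 3 → ℝ) : Matrix (Fin 3) (Fin 3) ℝ :=
  Matrix.of fun k l => ∫ ω, pd k (pd l (reml (y ω))) θ ∂P

/-- `h' A⁻¹ b`, with `h = ∂ζ̃/∂θ` and `b = ∂l/∂θ`. -/
noncomputable def hAb {m₁ m₂ : ℕ} {Ω : Type} [MeasurableSpace Ω] (P : Measure Ω)
    (y : Ω → Fin m₁ × Fin m₂ → ℝ) (θ : Fin 3 → ℝ) (a₀ : ℝ) (a₁ : Fin m₁ → ℝ) (a₂ : Fin m₂ → ℝ)
    (ω : Ω) : ℝ :=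
  (fun k => pd k (blup a₀ a₁ a₂ (y ω)) θ) ⬝ᵥ
    (Amat P y θ)⁻¹ *ᵥ (fun k => pd k (reml (y ω)) θ)

/-- `g₃ = E (h' A⁻¹ b)²`. -/
noncomputable def g3 {m₁ m₂ : ℕ} {Ω : Type} [MeasurableSpace Ω] (P : Measure Ω)
    (y : Ω → Fin m₁ × Fin m₂ → ℝ) (θ : Fin 3 → ℝ) (a₀ : ℝ) (a₁ : Fin m₁ → ℝ)
    (a₂ : Fin m₂ → ℝ) : ℝ :=
  ∫ ω, (hAb P y θ a₀ a₁ a₂ ω) ^ 2 ∂P

/-- A law on `ℝ` with mean `0`, variance `s` and finite eighth moment. -/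
structure IsLaw (F : Measure ℝ) (s : ℝ) : Prop where
  prob : IsProbabilityMeasure F
  mean : ∫ x, x ∂F = 0
  var : ∫ x, x ^ 2 ∂F = s
  eighth : Integrable (fun x : ℝ => x ^ 8) F

/-- The crossed random effects model: `u_i` i.i.d. `F₁`, `v_j` i.i.d. `F₂`, `e_ij` i.i.d. `F₀`, all
independent. -/
structure IsModel {m₁ m₂ : ℕ} {Ω : Type} [MeasurableSpace Ω] (P : Measure Ω)
    (F₀ F₁ F₂ : Measure ℝ) (u : Fin m₁ → Ω → ℝ) (v : Fin m₂ → Ω → ℝ)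
    (e : Fin m₁ × Fin m₂ → Ω → ℝ) : Prop where
  meas_u : ∀ i, Measurable (u i)
  meas_v : ∀ j, Measurable (v j)
  meas_e : ∀ p, Measurable (e p)
  law_u : ∀ i, P.map (u i) = F₁
  law_v : ∀ j, P.map (v j) = F₂
  law_e : ∀ p, P.map (e p) = F₀
  indep : iIndepFun (Sum.elim u (Sum.elim v e)) P

end Pool.Agent.Q39.EB
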