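import Pool.Agent.Q39.EB.Alg

namespace Pool.Agent.Q39.EB

open Matrix Finset Filter Topology MeasureTheory

variable {m₁ m₂ : ℕ}

/-- the Jacobian of `λ` with respect to `θ` -/
def J (m₁ m₂ : ℕ) : Fin 3 → Fin 3 → ℝ := ![![1, 0, 0], ![1, m₂, 0], ![1, 0, m₁]]

/-- the eigenvalues -/
def lam (m₁ m₂ : ℕ) (θ : Fin 3 → ℝ) : Fin 3 → ℝ := ![l0 θ, l1 m₂ θ, l2 m₁ θ]

/-- the degrees of freedom -/
def nn (m₁ m₂ : ℕ) : Fin 3 → ℝ := ![((m₁ : ℝ) - 1) * ((m₂ : ℝ) - 1), (m₁ : ℝ) - 1, (m₂ : ℝ) - 1]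

theorem lam_update (θ : Fin 3 → ℝ) (k : Fin 3) (t : ℝ) (r : Fin 3) :
    lam m₁ m₂ (Function.update θ k t) r = lam m₁ m₂ θ r + J m₁ m₂ r k * (t - θ k) := by
  fin_cases r <;> fin_cases k <;> simp [lam, J, l0, l1, l2, Function.update] <;> ring

theorem hasDerivAt_lam (θ : Fin 3 → ℝ) (k r : Fin 3) :
    HasDerivAt (fun t => lam m₁ m₂ (Function.update θ k t) r) (J m₁ m₂ r k) (θ k) := by
  simp only [lam_update]
  have h := ((hasDerivAt_id (θ k)).sub_const (θ k)).const_mul (J m₁ m₂ r k)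
  simpa using h.const_add (lam m₁ m₂ θ r)

theorem lam_pos {θ : Fin 3 → ℝ} (hθ : ∀ k, 0 < θ k) (r : Fin 3) : 0 < lam m₁ m₂ θ r := by
  obtain ⟨p0, p1, p2, -⟩ := pos_l (m₁ := m₁) (m₂ := m₂) hθ
  fin_cases r <;> simp [lam, p0, p1, p2]

theorem ev_pos {θ : Fin 3 → ℝ} (hθ : ∀ k, 0 < θ k) (k : Fin 3) :
    ∀ᶠ t in 𝓝 (θ k), ∀ j, 0 < Function.update θ k t j := by
  filter_upwards [lt_mem_nhds (hθ k)] with t ht j
  by_cases h : j = k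
  · subst h; simpa using ht
  · rw [Function.update_of_ne h]; exact hθ j

/-- closed form of the likelihood, as a sum over the three strata -/
noncomputable def Ls (m₁ m₂ : ℕ) (q : Fin 3 → ℝ) (θ : Fin 3 → ℝ) : ℝ :=
  -(1 / 2) * (∑ r, (nn m₁ m₂ r * Real.log (lam m₁ m₂ θ r) + q r / lam m₁ m₂ θ r)
    + Real.log ((m₁ : ℝ) * m₂))

/-- the vector of the sums of squares -/
noncomputable def Qv (y : Fin m₁ × Fin m₂ → ℝ) : Fin 3 → ℝ := ![Q0 y, Q1 y, Q2 y]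

theorem reml_eq' (h1 : m₁ ≠ 0) (h2 : m₂ ≠ 0) {θ : Fin 3 → ℝ} (hθ : ∀ k, 0 < θ k)
    (y : Fin m₁ × Fin m₂ → ℝ) : reml y θ = Ls m₁ m₂ (Qv y) θ := by
  rw [reml_eq h1 h2 hθ]
  simp only [Lf, Ls, Fin.sum_univ_three, nn, lam, Qv, Matrix.cons_val_zero, Matrix.cons_val_one,
    Matrix.cons_val]
  ring

/-- gradient -/
noncomputable def gradL (m₁ m₂ : ℕ) (q : Fin 3 → ℝ) (θ : Fin 3 → ℝ) (l : Fin 3) : ℝ :=
  -(1 / 2) * ∑ r, J m₁ m₂ r l * (nn m₁ m₂ r / lam m₁ m₂ θ r - q r / lam m₁ m₂ θ r ^ 2)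

/-- Hessian -/
noncomputable def hessL (m₁ m₂ : ℕ) (q : Fin 3 → ℝ) (θ : Fin 3 → ℝ) (k l : Fin 3) : ℝ :=
  -(1 / 2) * ∑ r, J m₁ m₂ r l * J m₁ m₂ r k *
    (-(nn m₁ m₂ r / lam m₁ m₂ θ r ^ 2) + 2 * q r / lam m₁ m₂ θ r ^ 3)

theorem pd_reml (h1 : m₁ ≠ 0) (h2 : m₂ ≠ 0) {θ : Fin 3 → ℝ} (hθ : ∀ k, 0 < θ k)
    (y : Fin m₁ × Fin m₂ → ℝ) (l : Fin 3) :
    pd l (reml y) θ = gradL m₁ m₂ (Qv y) θ l := by
  have he : (fun t => reml y (Function.update θ l t)) =ᶠ[𝓝 (θ l)]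
      fun t => Ls m₁ m₂ (Qv y) (Function.update θ l t) := by
    filter_upwards [ev_pos hθ l] with t ht
    exact reml_eq' h1 h2 ht y
  unfold pd
  rw [he.deriv_eq]
  have hd : ∀ r : Fin 3, HasDerivAt (fun t => nn m₁ m₂ r *
      Real.log (lam m₁ m₂ (Function.update θ l t) r) + Qv y r / lam m₁ m₂ (Function.update θ l t) r)
      (J m₁ m₂ r l * (nn m₁ m₂ r / lam m₁ m₂ θ r - Qv y r / lam m₁ m₂ θ r ^ 2)) (θ l) := by
    intro r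
    have h := hasDerivAt_lam (m₁ := m₁) (m₂ := m₂) θ l r
    have e : lam m₁ m₂ (Function.update θ l (θ l)) r = lam m₁ m₂ θ r := by
      rw [Function.update_eq_self]
    have hp := (lam_pos (m₁ := m₁) (m₂ := m₂) hθ r).ne'
    have hp' : lam m₁ m₂ (Function.update θ l (θ l)) r ≠ 0 := by rw [e]; exact hp
    have h3 := (h.log hp').const_mul (nn m₁ m₂ r)
    have h4 := (hasDerivAt_const (θ l) (Qv y r)).div h hp'
    have h5 := h3.add h4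
    rw [e] at h5
    refine h5.congr_deriv ?_
    field_simp
    ring
  have hs := HasDerivAt.fun_sum (u := Finset.univ) fun r _ => hd r
  have := ((hs.add_const (Real.log ((m₁ : ℝ) * m₂))).const_mul (-(1 / 2) : ℝ)).deriv
  exact this

theorem pd_pd_reml (h1 : m₁ ≠ 0) (h2 : m₂ ≠ 0) {θ : Fin 3 → ℝ} (hθ : ∀ k, 0 < θ k)
    (y : Fin m₁ × Fin m₂ → ℝ) (k l : Fin 3) :
    pd k (pd l (reml y)) θ = hessL m₁ m₂ (Qv y) θ k l := by
  have he : (fun t => pd l (reml y) (Function.update θ k t)) =ᶠ[𝓝 (θ k)]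
      fun t => gradL m₁ m₂ (Qv y) (Function.update θ k t) l := by
    filter_upwards [ev_pos hθ k] with t ht
    exact pd_reml h1 h2 ht y l
  conv_lhs => unfold pd
  change deriv (fun t => pd l (reml y) (Function.update θ k t)) (θ k) = _
  rw [he.deriv_eq]
  have hd : ∀ r : Fin 3, HasDerivAt (fun t => J m₁ m₂ r l *
      (nn m₁ m₂ r / lam m₁ m₂ (Function.update θ k t) r -
        Qv y r / lam m₁ m₂ (Function.update θ k t) r ^ 2))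
      (J m₁ m₂ r l * J m₁ m₂ r k *
        (-(nn m₁ m₂ r / lam m₁ m₂ θ r ^ 2) + 2 * Qv y r / lam m₁ m₂ θ r ^ 3)) (θ k) := by
    intro r
    have h := hasDerivAt_lam (m₁ := m₁) (m₂ := m₂) θ k r
    have e : lam m₁ m₂ (Function.update θ k (θ k)) r = lam m₁ m₂ θ r := by
      rw [Function.update_eq_self]
    have hp := (lam_pos (m₁ := m₁) (m₂ := m₂) hθ r).ne'
    have hp' : lam m₁ m₂ (Function.update θ k (θ k)) r ≠ 0 := by rw [e]; exact hp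
    have h3 := (hasDerivAt_const (θ k) (nn m₁ m₂ r)).div h hp'
    have h4 := (hasDerivAt_const (θ k) (Qv y r)).div (h.pow 2) (pow_ne_zero 2 hp')
    have h5 := (h3.sub h4).const_mul (J m₁ m₂ r l)
    rw [e] at h5
    refine h5.congr_deriv ?_
    simp only [Pi.pow_apply, e]
    field_simp
    ring
  have hs := HasDerivAt.fun_sum (u := Finset.univ) fun r _ => hd r
  exact (hs.const_mul (-(1 / 2) : ℝ)).deriv

/-- derivative of the BLUP with respect to `λ` -/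
noncomputable def eta (m₁ m₂ : ℕ) (x1 x2 : ℝ) (θ : Fin 3 → ℝ) : Fin 3 → ℝ :=
  ![-(x1 / l1 m₂ θ + x2 / l2 m₁ θ), l0 θ * x1 / l1 m₂ θ ^ 2, l0 θ * x2 / l2 m₁ θ ^ 2]

theorem pd_blup (h1 : m₁ ≠ 0) (h2 : m₂ ≠ 0) {θ : Fin 3 → ℝ} (hθ : ∀ k, 0 < θ k)
    (a₀ : ℝ) (a₁ : Fin m₁ → ℝ) (a₂ : Fin m₂ → ℝ) (y : Fin m₁ × Fin m₂ → ℝ) (k : Fin 3) :
    pd k (blup a₀ a₁ a₂ y) θ =
      ∑ r, J m₁ m₂ r k * eta m₁ m₂ (∑ i, a₁ i * R y i) (∑ j, a₂ j * C y j) θ r := by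
  set x1 := ∑ i, a₁ i * R y i with hx1
  set x2 := ∑ j, a₂ j * C y j with hx2
  obtain ⟨p0, p1, p2, -⟩ := pos_l (m₁ := m₁) (m₂ := m₂) hθ
  have he : (fun t => blup a₀ a₁ a₂ y (Function.update θ k t)) =ᶠ[𝓝 (θ k)]
      fun t => a₀ * gmean y +
        (1 - lam m₁ m₂ (Function.update θ k t) 0 / lam m₁ m₂ (Function.update θ k t) 1) * x1 +
        (1 - lam m₁ m₂ (Function.update θ k t) 0 / lam m₁ m₂ (Function.update θ k t) 2) * x2 := by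
    filter_upwards [ev_pos hθ k] with t ht
    rw [blup_eq h1 h2 ht]
    rfl
  unfold pd
  rw [he.deriv_eq]
  have e : ∀ r, lam m₁ m₂ (Function.update θ k (θ k)) r = lam m₁ m₂ θ r := by
    intro r; rw [Function.update_eq_self]
  have hp : ∀ r, lam m₁ m₂ (Function.update θ k (θ k)) r ≠ 0 := fun r => by
    rw [e]; exact (lam_pos (m₁ := m₁) (m₂ := m₂) hθ r).ne'
  have g0 := hasDerivAt_lam (m₁ := m₁) (m₂ := m₂) θ k 0
  have g1 := hasDerivAt_lam (m₁ := m₁) (m₂ := m₂) θ k 1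
  have g2 := hasDerivAt_lam (m₁ := m₁) (m₂ := m₂) θ k 2
  have h3 := ((g0.div g1 (hp 1)).const_sub 1).mul_const x1
  have h4 := ((g0.div g2 (hp 2)).const_sub 1).mul_const x2
  have h5 := ((h3.const_add (a₀ * gmean y)).add h4).deriv
  refine (h5.trans ?_)
  rw [e, e, e]
  have q0 := p0.ne'
  have q1 := p1.ne'
  have q2 := p2.ne'
  simp only [Fin.sum_univ_three, eta, lam, Matrix.cons_val_zero, Matrix.cons_val_one,
    Matrix.cons_val]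
  field_simp
  ring

/-- the closed form of `A` -/
noncomputable def Acl (m₁ m₂ : ℕ) (θ : Fin 3 → ℝ) : Matrix (Fin 3) (Fin 3) ℝ :=
  Matrix.of fun k l => -(1 / 2) * ∑ r, J m₁ m₂ r l * J m₁ m₂ r k *
    (nn m₁ m₂ r / lam m₁ m₂ θ r ^ 2)

/-- the solution of `A x = b` -/
noncomputable def xv (m₁ m₂ : ℕ) (d : Fin 3 → ℝ) : Fin 3 → ℝ :=
  ![d 0, (d 1 - d 0) / m₂, (d 2 - d 0) / m₁]

theorem nn_pos (h1 : 2 ≤ m₁) (h2 : 2 ≤ m₂) (r : Fin 3) : 0 < nn m₁ m₂ r := by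
  have k1 : (2 : ℝ) ≤ m₁ := by exact_mod_cast h1
  have k2 : (2 : ℝ) ≤ m₂ := by exact_mod_cast h2
  have a1 : (0 : ℝ) < (m₁ : ℝ) - 1 := by linarith
  have a2 : (0 : ℝ) < (m₂ : ℝ) - 1 := by linarith
  fin_cases r <;> simp only [nn] <;> simp [a1, a2]

theorem hAb_eq {Ω : Type} [MeasurableSpace Ω] (P : Measure Ω)
    (y : Ω → Fin m₁ × Fin m₂ → ℝ) (h1 : 2 ≤ m₁) (h2 : 2 ≤ m₂) {θ : Fin 3 → ℝ}
    (hθ : ∀ k, 0 < θ k) (hA : Amat P y θ = Acl m₁ m₂ θ)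
    (a₀ : ℝ) (a₁ : Fin m₁ → ℝ) (a₂ : Fin m₂ → ℝ) (ω : Ω) :
    hAb P y θ a₀ a₁ a₂ ω = ∑ r, eta m₁ m₂ (∑ i, a₁ i * R (y ω) i) (∑ j, a₂ j * C (y ω) j) θ r *
      (lam m₁ m₂ θ r - Qv (y ω) r / nn m₁ m₂ r) := by
  have z1 : m₁ ≠ 0 := by omega
  have z2 : m₂ ≠ 0 := by omega
  have k1 : (m₁ : ℝ) ≠ 0 := by exact_mod_cast z1
  have k2 : (m₂ : ℝ) ≠ 0 := by exact_mod_cast z2
  have n0 := (nn_pos h1 h2 0).ne'
  have n1 := (nn_pos h1 h2 1).ne'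
  have n2 := (nn_pos h1 h2 2).ne'
  have w0 := (lam_pos (m₁ := m₁) (m₂ := m₂) hθ 0).ne'
  have w1 := (lam_pos (m₁ := m₁) (m₂ := m₂) hθ 1).ne'
  have w2 := (lam_pos (m₁ := m₁) (m₂ := m₂) hθ 2).ne'
  unfold hAb
  rw [hA]
  set d : Fin 3 → ℝ := fun r => lam m₁ m₂ θ r - Qv (y ω) r / nn m₁ m₂ r with hd
  have hb : (fun k => pd k (reml (y ω)) θ) = Acl m₁ m₂ θ *ᵥ xv m₁ m₂ d := by
    funext k
    rw [pd_reml z1 z2 hθ]
    simp only [Matrix.mulVec, dotProduct, Acl, Matrix.of_apply, Fin.sum_univ_three, xv, gradL, hd]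
    generalize lam m₁ m₂ θ 0 = L0 at *
    generalize lam m₁ m₂ θ 1 = L1 at *
    generalize lam m₁ m₂ θ 2 = L2 at *
    generalize nn m₁ m₂ 0 = N0 at *
    generalize nn m₁ m₂ 1 = N1 at *
    generalize nn m₁ m₂ 2 = N2 at *
    generalize Qv (y ω) 0 = q0 at *
    generalize Qv (y ω) 1 = q1 at *
    generalize Qv (y ω) 2 = q2 at *
    fin_cases k <;> simp [J] <;> field_simp <;> ring
  have hdet : (Acl m₁ m₂ θ).det ≠ 0 := by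
    have e : (Acl m₁ m₂ θ).det = -(1 / 8) * (m₁ * m₂) ^ 2 *
        ((nn m₁ m₂ 0 / lam m₁ m₂ θ 0 ^ 2) * (nn m₁ m₂ 1 / lam m₁ m₂ θ 1 ^ 2) *
          (nn m₁ m₂ 2 / lam m₁ m₂ θ 2 ^ 2)) := by
      rw [Matrix.det_fin_three]
      simp only [Acl, Matrix.of_apply, Fin.sum_univ_three]
      generalize nn m₁ m₂ 0 / lam m₁ m₂ θ 0 ^ 2 = D0
      generalize nn m₁ m₂ 1 / lam m₁ m₂ θ 1 ^ 2 = D1
      generalize nn m₁ m₂ 2 / lam m₁ m₂ θ 2 ^ 2 = D2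
      simp [J]
      ring
    rw [e]
    have := mul_ne_zero k1 k2
    positivity
  rw [hb, Matrix.mulVec_mulVec, Matrix.nonsing_inv_mul _ (isUnit_iff_ne_zero.2 hdet),
    Matrix.one_mulVec]
  simp only [dotProduct, pd_blup z1 z2 hθ]
  set η := eta m₁ m₂ (∑ i, a₁ i * R (y ω) i) (∑ j, a₂ j * C (y ω) j) θ with hη
  have hd' : ∀ r, lam m₁ m₂ θ r - Qv (y ω) r / nn m₁ m₂ r = d r := fun r => rfl
  simp only [hd']
  simp only [Fin.sum_univ_three, xv, J, Matrix.cons_val_zero, Matrix.cons_val_one,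
    Matrix.cons_val]
  field_simp
  ring

end Pool.Agent.Q39.EB
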