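import Pool.Agent.Q39.EB.Mod

namespace Pool.Agent.Q39.EB

open Finset MeasureTheory ProbabilityTheory

variable {m₁ m₂ : ℕ} {Ω : Type} [MeasurableSpace Ω] {P : Measure Ω} [IsProbabilityMeasure P]
  {F₀ F₁ F₂ : Measure ℝ} {u : Fin m₁ → Ω → ℝ} {v : Fin m₂ → Ω → ℝ} {e : Fin m₁ × Fin m₂ → Ω → ℝ}
  {θ : Fin 3 → ℝ}

/-- the random array of observations -/
def yy (μ : ℝ) (u : Fin m₁ → Ω → ℝ) (v : Fin m₂ → Ω → ℝ) (e : Fin m₁ × Fin m₂ → Ω → ℝ) (ω : Ω)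
    (p : Fin m₁ × Fin m₂) : ℝ := μ + u p.1 ω + v p.2 ω + e p ω

theorem yy_obs (μ : ℝ) (ω : Ω) : yy μ u v e ω =
    obs μ (fun i => u i ω) (fun j => v j ω) (fun p => e p ω) := rfl

theorem R_yy (h1 : (m₁ : ℝ) ≠ 0) (h2 : (m₂ : ℝ) ≠ 0) (μ : ℝ) (i : Fin m₁) (ω : Ω) :
    R (yy μ u v e ω) i = ∑ t, cR m₂ (cen m₁ i) t * WW u v e t ω := by
  simp only [WW_apply]
  rw [cR_sum, R_cen, yy_obs, row_lin h2 _ _ _ _ _ (sum_cen h1 i)]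

theorem C_yy (h1 : (m₁ : ℝ) ≠ 0) (h2 : (m₂ : ℝ) ≠ 0) (μ : ℝ) (j : Fin m₂) (ω : Ω) :
    C (yy μ u v e ω) j = ∑ t, cC m₁ (cen m₂ j) t * WW u v e t ω := by
  simp only [WW_apply]
  rw [cC_sum, C_cen, yy_obs, col_lin h1 _ _ _ _ _ (sum_cen h2 j)]

theorem E_yy (h1 : (m₁ : ℝ) ≠ 0) (h2 : (m₂ : ℝ) ≠ 0) (μ : ℝ) (i : Fin m₁) (j : Fin m₂) (ω : Ω) :
    E (yy μ u v e ω) (i, j) = ∑ t, cE i j t * WW u v e t ω := by
  simp only [WW_apply]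
  rw [cE_sum, yy_obs, E_obs h1 h2]

theorem aR_yy (h1 : (m₁ : ℝ) ≠ 0) (h2 : (m₂ : ℝ) ≠ 0) (μ : ℝ) (a : Fin m₁ → ℝ) (ω : Ω) :
    ∑ i, a i * R (yy μ u v e ω) i =
      ∑ t, cR m₂ (fun i => a i - (∑ i, a i) / m₁) t * WW u v e t ω := by
  simp only [WW_apply]
  rw [cR_sum, aR, yy_obs, row_lin h2 _ _ _ _ _ (sum_centred h1 a)]

theorem aC_yy (h1 : (m₁ : ℝ) ≠ 0) (h2 : (m₂ : ℝ) ≠ 0) (μ : ℝ) (a : Fin m₂ → ℝ) (ω : Ω) :
    ∑ j, a j * C (yy μ u v e ω) j =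
      ∑ t, cC m₁ (fun i => a i - (∑ i, a i) / m₂) t * WW u v e t ω := by
  simp only [WW_apply]
  rw [cC_sum, aC, yy_obs, col_lin h1 _ _ _ _ _ (sum_centred h2 a)]

/-- a bound for the second and fourth moments -/
theorem exists_K (F₀ F₁ F₂ : Measure ℝ) (θ : Fin 3 → ℝ) : ∃ K : ℝ, 1 ≤ K ∧
    ∀ (m₁ m₂ : ℕ) (t : TT m₁ m₂), sW θ t ≤ K ∧ ∫ x, x ^ 4 ∂(LW F₀ F₁ F₂ t) ≤ K ^ 2 := by
  refine ⟨1 + |θ 0| + |θ 1| + |θ 2| + |∫ x, x ^ 4 ∂F₀| + |∫ x, x ^ 4 ∂F₁| + |∫ x, x ^ 4 ∂F₂|,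
    ?_, fun m₁ m₂ t => ?_⟩
  · have := abs_nonneg (θ 0); have := abs_nonneg (θ 1); have := abs_nonneg (θ 2)
    have := abs_nonneg (∫ x, x ^ 4 ∂F₀); have := abs_nonneg (∫ x, x ^ 4 ∂F₁)
    have := abs_nonneg (∫ x, x ^ 4 ∂F₂)
    linarith
  · have a0 := abs_nonneg (θ 0); have a1 := abs_nonneg (θ 1); have a2 := abs_nonneg (θ 2)
    have b0 := abs_nonneg (∫ x, x ^ 4 ∂F₀); have b1 := abs_nonneg (∫ x, x ^ 4 ∂F₁)
    have b2 := abs_nonneg (∫ x, x ^ 4 ∂F₂)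
    have c0 := le_abs_self (θ 0); have c1 := le_abs_self (θ 1); have c2 := le_abs_self (θ 2)
    have d0 := le_abs_self (∫ x, x ^ 4 ∂F₀); have d1 := le_abs_self (∫ x, x ^ 4 ∂F₁)
    have d2 := le_abs_self (∫ x, x ^ 4 ∂F₂)
    set K := 1 + |θ 0| + |θ 1| + |θ 2| + |∫ x, x ^ 4 ∂F₀| + |∫ x, x ^ 4 ∂F₁| + |∫ x, x ^ 4 ∂F₂|
      with hK
    have hK1 : 1 ≤ K := by linarith
    have hKK : K ≤ K ^ 2 := by nlinarith
    rcases t with i | j | p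
    · refine ⟨?_, ?_⟩
      · show θ 1 ≤ K
        linarith
      · show ∫ x, x ^ 4 ∂F₁ ≤ K ^ 2
        linarith
    · refine ⟨?_, ?_⟩
      · show θ 2 ≤ K
        linarith
      · show ∫ x, x ^ 4 ∂F₂ ≤ K ^ 2
        linarith
    · refine ⟨?_, ?_⟩
      · show θ 0 ≤ K
        linarith
      · show ∫ x, x ^ 4 ∂F₀ ≤ K ^ 2
        linarith

theorem Qv_int (hm1 : 2 ≤ m₁) (hm2 : 2 ≤ m₂) (h : IsModel P F₀ F₁ F₂ u v e)
    (h0 : IsLaw F₀ (θ 0)) (h1 : IsLaw F₁ (θ 1)) (h2 : IsLaw F₂ (θ 2)) (μ : ℝ) (r : Fin 3) :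
    Integrable (fun ω => Qv (yy μ u v e ω) r) P ∧
      ∫ ω, Qv (yy μ u v e ω) r ∂P = nn m₁ m₂ r * lam m₁ m₂ θ r := by
  have k1 : (m₁ : ℝ) ≠ 0 := by
    have : m₁ ≠ 0 := by omega
    exact_mod_cast this
  have k2 : (m₂ : ℝ) ≠ 0 := by
    have : m₂ ≠ 0 := by omega
    exact_mod_cast this
  obtain ⟨K, -, hK⟩ := exists_K F₀ F₁ F₂ θ
  have L := fun c : TT m₁ m₂ → ℝ => lin_model h h0 h1 h2 K (fun t => (hK m₁ m₂ t).1)
    (fun t => (hK m₁ m₂ t).2) c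
  have s1 : ∀ i : Fin m₁, ∑ i', cen m₁ i i' ^ 2 = 1 - 1 / (m₁ : ℝ) := fun i => sum_cen_sq k1 i
  have s2 : ∀ i : Fin m₂, ∑ i', cen m₂ i i' ^ 2 = 1 - 1 / (m₂ : ℝ) := fun i => sum_cen_sq k2 i
  fin_cases r
  · show Integrable (fun ω => ∑ i, ∑ j, E (yy μ u v e ω) (i, j) ^ 2) P ∧
      ∫ ω, ∑ i, ∑ j, E (yy μ u v e ω) (i, j) ^ 2 ∂P =
        (((m₁ : ℝ) - 1) * ((m₂ : ℝ) - 1)) * l0 θ
    simp only [E_yy k1 k2]
    refine ⟨integrable_finsetSum _ fun i _ => integrable_finsetSum _ fun j _ => (L _).2.1, ?_⟩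
    rw [integral_finsetSum _ fun i _ => integrable_finsetSum _ fun j _ => (L _).2.1]
    have e1 : ∀ i : Fin m₁, ∫ ω, ∑ j, (∑ t, cE i j t * WW u v e t ω) ^ 2 ∂P =
        m₂ * ((1 - 1 / m₁) * (1 - 1 / m₂) * θ 0) := by
      intro i
      rw [integral_finsetSum _ fun j _ => (L _).2.1]
      have e2 : ∀ j : Fin m₂, ∫ ω, (∑ t, cE i j t * WW u v e t ω) ^ 2 ∂P =
          (1 - 1 / m₁) * (1 - 1 / m₂) * θ 0 := by
        intro j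
        rw [(L _).2.2.1]
        exact cE_sq k1 k2 i j _ _ _
      simp only [e2, Finset.sum_const, Finset.card_univ, Fintype.card_fin, nsmul_eq_mul]
    simp only [e1, Finset.sum_const, Finset.card_univ, Fintype.card_fin, nsmul_eq_mul, l0]
    field_simp
  · show Integrable (fun ω => m₂ * ∑ i, R (yy μ u v e ω) i ^ 2) P ∧
      ∫ ω, m₂ * ∑ i, R (yy μ u v e ω) i ^ 2 ∂P = ((m₁ : ℝ) - 1) * l1 m₂ θ
    simp only [R_yy k1 k2]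
    refine ⟨(integrable_finsetSum _ fun i _ => (L _).2.1).const_mul _, ?_⟩
    rw [integral_const_mul, integral_finsetSum _ fun i _ => (L _).2.1]
    have e2 : ∀ i : Fin m₁, ∫ ω, (∑ t, cR m₂ (cen m₁ i) t * WW u v e t ω) ^ 2 ∂P =
        (1 - 1 / m₁) * (θ 1 + θ 0 / m₂) := by
      intro i
      rw [(L _).2.2.1, ← s1 i]
      exact cR_sq k2 _ _ _ _
    simp only [e2, Finset.sum_const, Finset.card_univ, Fintype.card_fin, nsmul_eq_mul, l1]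
    field_simp
    ring
  · show Integrable (fun ω => m₁ * ∑ i, C (yy μ u v e ω) i ^ 2) P ∧
      ∫ ω, m₁ * ∑ i, C (yy μ u v e ω) i ^ 2 ∂P = ((m₂ : ℝ) - 1) * l2 m₁ θ
    simp only [C_yy k1 k2]
    refine ⟨(integrable_finsetSum _ fun i _ => (L _).2.1).const_mul _, ?_⟩
    rw [integral_const_mul, integral_finsetSum _ fun i _ => (L _).2.1]
    have e2 : ∀ i : Fin m₂, ∫ ω, (∑ t, cC m₁ (cen m₂ i) t * WW u v e t ω) ^ 2 ∂P =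
        (1 - 1 / m₂) * (θ 2 + θ 0 / m₁) := by
      intro i
      rw [(L _).2.2.1, ← s2 i]
      exact cC_sq k1 _ _ _ _
    simp only [e2, Finset.sum_const, Finset.card_univ, Fintype.card_fin, nsmul_eq_mul, l2]
    field_simp
    ring

theorem Amat_eq (hm1 : 2 ≤ m₁) (hm2 : 2 ≤ m₂) (hθ : ∀ k, 0 < θ k)
    (h : IsModel P F₀ F₁ F₂ u v e)
    (h0 : IsLaw F₀ (θ 0)) (h1 : IsLaw F₁ (θ 1)) (h2 : IsLaw F₂ (θ 2)) (μ : ℝ) :
    Amat P (yy μ u v e) θ = Acl m₁ m₂ θ := by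
  have z1 : m₁ ≠ 0 := by omega
  have z2 : m₂ ≠ 0 := by omega
  have Q := Qv_int hm1 hm2 h h0 h1 h2 μ
  ext k l
  simp only [Amat, Matrix.of_apply, Acl]
  simp only [pd_pd_reml z1 z2 hθ, hessL]
  rw [integral_const_mul]
  congr 1
  have i1 : ∀ r : Fin 3, Integrable (fun ω => J m₁ m₂ r l * J m₁ m₂ r k *
      (-(nn m₁ m₂ r / lam m₁ m₂ θ r ^ 2) +
        2 * Qv (yy μ u v e ω) r / lam m₁ m₂ θ r ^ 3)) P := by
    intro r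
    refine Integrable.const_mul ?_ _
    refine (integrable_const _).add ?_
    exact (((Q r).1.const_mul 2).div_const _)
  rw [integral_finsetSum _ fun r _ => i1 r]
  refine Finset.sum_congr rfl fun r _ => ?_
  have hp := (lam_pos (m₁ := m₁) (m₂ := m₂) hθ r).ne'
  rw [integral_const_mul, integral_add (integrable_const _) (((Q r).1.const_mul 2).div_const _),
    integral_const, integral_div, integral_const_mul, (Q r).2]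
  rw [probReal_univ, one_smul]
  congr 1
  field_simp
  ring

end Pool.Agent.Q39.EB
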