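import Pool.Agent.Q39.EB.Der

namespace Pool.Agent.Q39.EB

open Finset MeasureTheory ProbabilityTheory

theorem mono_bound (s x : ℝ) {a b : ℕ} (h : a + b ≤ 4) : |s ^ a * x ^ b| ≤ 1 + s ^ 4 + x ^ 4 := by
  set M := max 1 (max |s| |x|) with hM
  have h1 : 1 ≤ M := le_max_left _ _
  have hs : |s| ≤ M := (le_max_left _ _).trans (le_max_right _ _)
  have hx : |x| ≤ M := (le_max_right _ _).trans (le_max_right _ _)
  have e : |s ^ a * x ^ b| = |s| ^ a * |x| ^ b := by rw [abs_mul, abs_pow, abs_pow]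
  have h2 : |s| ^ a * |x| ^ b ≤ M ^ a * M ^ b := by gcongr
  have h3 : M ^ a * M ^ b ≤ M ^ 4 := by
    rw [← pow_add]; exact pow_le_pow_right₀ h1 h
  have h4 : M ^ 4 ≤ 1 + s ^ 4 + x ^ 4 := by
    have e1 : |s| ^ 4 = s ^ 4 := by rw [← abs_pow, abs_of_nonneg (by positivity)]
    have e2 : |x| ^ 4 = x ^ 4 := by rw [← abs_pow, abs_of_nonneg (by positivity)]
    have p1 : 0 ≤ s ^ 4 := by positivity
    have p2 : 0 ≤ x ^ 4 := by positivity
    rcases max_choice (1 : ℝ) (max |s| |x|) with h | h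
    · rw [hM, h]; linarith
    · rcases max_choice |s| |x| with h' | h'
      · rw [hM, h, h', e1]; linarith
      · rw [hM, h, h', e2]; linarith
  rw [e]
  linarith

variable {T Ω : Type} [Fintype T] [DecidableEq T] [MeasurableSpace Ω] {P : Measure Ω}
  [IsProbabilityMeasure P]

theorem int_mono {S X : Ω → ℝ} (hS : Measurable S) (hX : Measurable X)
    (hS4 : Integrable (fun ω => S ω ^ 4) P) (hX4 : Integrable (fun ω => X ω ^ 4) P) {a b : ℕ}
    (h : a + b ≤ 4) : Integrable (fun ω => S ω ^ a * X ω ^ b) P := by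
  refine Integrable.mono' (((integrable_const (1 : ℝ)).add hS4).add hX4)
    ((hS.pow_const a).mul (hX.pow_const b)).aestronglyMeasurable ?_
  filter_upwards with ω
  rw [Real.norm_eq_abs]
  exact mono_bound _ _ h

theorem indep_mono {S X : Ω → ℝ} (hS : Measurable S) (hX : Measurable X) (hi : IndepFun S X P)
    (a b : ℕ) : ∫ ω, S ω ^ a * X ω ^ b ∂P = (∫ ω, S ω ^ a ∂P) * ∫ ω, X ω ^ b ∂P :=
  hi.integral_fun_comp_mul_comp (f := fun x : ℝ => x ^ a) (g := fun x : ℝ => x ^ b)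
    hS.aemeasurable hX.aemeasurable (by fun_prop) (by fun_prop)

/-- second and fourth moments of a linear form in independent centred variables -/
theorem lin_all (W : T → Ω → ℝ) (hm : ∀ t, Measurable (W t))
    (h4 : ∀ t, Integrable (fun ω => W t ω ^ 4) P) (h0 : ∀ t, ∫ ω, W t ω ∂P = 0)
    (hi : iIndepFun W P) (K : ℝ) (hK2 : ∀ t, ∫ ω, W t ω ^ 2 ∂P ≤ K)
    (hK4 : ∀ t, ∫ ω, W t ω ^ 4 ∂P ≤ K ^ 2) (c : T → ℝ) (s : Finset T) :
    Integrable (fun ω => (∑ t ∈ s, c t * W t ω) ^ 4) P ∧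
      ∫ ω, (∑ t ∈ s, c t * W t ω) ∂P = 0 ∧
      ∫ ω, (∑ t ∈ s, c t * W t ω) ^ 2 ∂P = ∑ t ∈ s, c t ^ 2 * ∫ ω, W t ω ^ 2 ∂P ∧
      ∫ ω, (∑ t ∈ s, c t * W t ω) ^ 4 ∂P ≤ 3 * K ^ 2 * (∑ t ∈ s, c t ^ 2) ^ 2 := by
  induction s using Finset.induction_on with
  | empty => simp
  | insert t s ht ih =>
    obtain ⟨i4, i1, i2, i3⟩ := ih
    set S : Ω → ℝ := fun ω => ∑ t ∈ s, c t * W t ω with hSdef
    set X : Ω → ℝ := fun ω => c t * W t ω with hXdef
    have mS : Measurable S := Finset.measurable_sum _ fun t _ => (hm t).const_mul _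
    have mX : Measurable X := (hm t).const_mul _
    have X4 : Integrable (fun ω => X ω ^ 4) P := by
      have := (h4 t).const_mul (c t ^ 4)
      refine this.congr (Filter.Eventually.of_forall fun ω => ?_)
      simp only [hXdef]; ring
    have hind : IndepFun S X P := by
      have hc : iIndepFun (fun t ω => c t * W t ω) P :=
        hi.comp (fun t x => c t * x) fun t => measurable_const_mul _
      have h := hc.indepFun_finsetSum_of_notMem (fun t => (hm t).const_mul _) ht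
      have e : (∑ j ∈ s, fun ω => c j * W j ω) = S := by
        funext ω; simp [hSdef, Finset.sum_apply]
      rw [e] at h
      exact h
    have eS : ∀ ω, ∑ t' ∈ insert t s, c t' * W t' ω = S ω + X ω := by
      intro ω; rw [Finset.sum_insert ht, add_comm]
    have m := fun (a b : ℕ) (h : a + b ≤ 4) => int_mono mS mX i4 X4 (P := P) h
    have q := fun (a b : ℕ) => indep_mono mS mX hind (P := P) a b
    have eX1 : ∫ ω, X ω ∂P = 0 := by
      simp only [hXdef]; rw [integral_const_mul, h0, mul_zero]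
    have eX2 : ∫ ω, X ω ^ 2 ∂P = c t ^ 2 * ∫ ω, W t ω ^ 2 ∂P := by
      simp only [hXdef, mul_pow]; rw [integral_const_mul]
    have eX4 : ∫ ω, X ω ^ 4 ∂P = c t ^ 4 * ∫ ω, W t ω ^ 4 ∂P := by
      simp only [hXdef, mul_pow]; rw [integral_const_mul]
    have mm : ∀ (a : ℕ), a ≤ 4 → Integrable (fun ω => S ω ^ a) P := by
      intro a ha
      have := m a 0 (by omega)
      simpa using this
    have mx : ∀ (a : ℕ), a ≤ 4 → Integrable (fun ω => X ω ^ a) P := by
      intro a ha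
      have := m 0 a (by omega)
      simpa using this
    have iS1 : Integrable S P := by simpa using mm 1 (by norm_num)
    have iX1 : Integrable X P := by simpa using mx 1 (by norm_num)
    simp only [eS]
    refine ⟨?_, ?_, ?_, ?_⟩
    · have : Integrable (fun ω => S ω ^ 4 * X ω ^ 0 + 4 * (S ω ^ 3 * X ω ^ 1)
          + 6 * (S ω ^ 2 * X ω ^ 2) + 4 * (S ω ^ 1 * X ω ^ 3) + S ω ^ 0 * X ω ^ 4) P :=
        ((((m 4 0 (by norm_num)).add ((m 3 1 (by norm_num)).const_mul 4)).add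
          ((m 2 2 (by norm_num)).const_mul 6)).add ((m 1 3 (by norm_num)).const_mul 4)).add
          (m 0 4 (by norm_num))
      refine this.congr (Filter.Eventually.of_forall fun ω => ?_)
      ring
    · rw [integral_add iS1 iX1, i1, eX1, add_zero]
    · have e : ∫ ω, (S ω + X ω) ^ 2 ∂P = ∫ ω, (S ω ^ 2 + 2 * (S ω ^ 1 * X ω ^ 1) + X ω ^ 2) ∂P :=
        integral_congr_ae (Filter.Eventually.of_forall fun ω => by ring)
      have A0 : Integrable (fun ω => 2 * (S ω ^ 1 * X ω ^ 1)) P :=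
        (m 1 1 (by norm_num)).const_mul 2
      have A1 : Integrable (fun ω => S ω ^ 2 + 2 * (S ω ^ 1 * X ω ^ 1)) P :=
        (mm 2 (by norm_num)).add A0
      rw [e, integral_add A1 (mx 2 (by norm_num)), integral_add (mm 2 (by norm_num)) A0,
        integral_const_mul, q, Finset.sum_insert ht, i2, eX2]
      simp only [pow_one, eX1]
      ring
    · have e : ∫ ω, (S ω + X ω) ^ 4 ∂P = ∫ ω, (S ω ^ 4 + 4 * (S ω ^ 3 * X ω ^ 1)
          + 6 * (S ω ^ 2 * X ω ^ 2) + 4 * (S ω ^ 1 * X ω ^ 3) + X ω ^ 4) ∂P :=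
        integral_congr_ae (Filter.Eventually.of_forall fun ω => by ring)
      have j31 : Integrable (fun ω => 4 * (S ω ^ 3 * X ω ^ 1)) P :=
        (m 3 1 (by norm_num)).const_mul 4
      have j22 : Integrable (fun ω => 6 * (S ω ^ 2 * X ω ^ 2)) P :=
        (m 2 2 (by norm_num)).const_mul 6
      have j13 : Integrable (fun ω => 4 * (S ω ^ 1 * X ω ^ 3)) P :=
        (m 1 3 (by norm_num)).const_mul 4
      have B1 : Integrable (fun ω => S ω ^ 4 + 4 * (S ω ^ 3 * X ω ^ 1)) P :=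
        (mm 4 le_rfl).add j31
      have B2 : Integrable (fun ω => S ω ^ 4 + 4 * (S ω ^ 3 * X ω ^ 1)
        + 6 * (S ω ^ 2 * X ω ^ 2)) P := B1.add j22
      have B3 : Integrable (fun ω => S ω ^ 4 + 4 * (S ω ^ 3 * X ω ^ 1)
        + 6 * (S ω ^ 2 * X ω ^ 2) + 4 * (S ω ^ 1 * X ω ^ 3)) P := B2.add j13
      rw [e, integral_add B3 (mx 4 le_rfl), integral_add B2 j13, integral_add B1 j22,
        integral_add (mm 4 le_rfl) j31,
        integral_const_mul, integral_const_mul, integral_const_mul, q, q, q, i2, eX2, eX4,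
        Finset.sum_insert ht]
      have i1' : ∫ ω, S ω ^ 1 ∂P = 0 := by simpa using i1
      simp only [pow_one, eX1] at i1' ⊢
      rw [i1']
      have b2 : ∑ t ∈ s, c t ^ 2 * ∫ ω, W t ω ^ 2 ∂P ≤ (∑ t ∈ s, c t ^ 2) * K := by
        rw [Finset.sum_mul]
        exact Finset.sum_le_sum fun t _ => mul_le_mul_of_nonneg_left (hK2 t) (sq_nonneg _)
      have n2 : 0 ≤ ∑ t ∈ s, c t ^ 2 * ∫ ω, W t ω ^ 2 ∂P :=
        Finset.sum_nonneg fun t _ => mul_nonneg (sq_nonneg _) (integral_nonneg fun ω => sq_nonneg _)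
      have n1 : 0 ≤ ∫ ω, W t ω ^ 2 ∂P := integral_nonneg fun ω => sq_nonneg _
      have nc : 0 ≤ ∑ t ∈ s, c t ^ 2 := Finset.sum_nonneg fun t _ => sq_nonneg _
      have hK0 : 0 ≤ K := n1.trans (hK2 t)
      have b3 : (∑ t ∈ s, c t ^ 2 * ∫ ω, W t ω ^ 2 ∂P) * (c t ^ 2 * ∫ ω, W t ω ^ 2 ∂P) ≤
          ((∑ t ∈ s, c t ^ 2) * K) * (c t ^ 2 * K) := by
        apply mul_le_mul b2 (mul_le_mul_of_nonneg_left (hK2 t) (sq_nonneg _))
          (mul_nonneg (sq_nonneg _) n1) (mul_nonneg nc hK0)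
      have b4 : c t ^ 4 * ∫ ω, W t ω ^ 4 ∂P ≤ c t ^ 4 * K ^ 2 :=
        mul_le_mul_of_nonneg_left (hK4 t) (by positivity)
      have n5 : 0 ≤ c t ^ 4 * K ^ 2 := by positivity
      nlinarith [i3, b3, b4, n5]

end Pool.Agent.Q39.EB
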