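import Pool.Agent.Q39.EB.Bnd

namespace Pool.Agent.Q39.EB

open Finset MeasureTheory ProbabilityTheory

variable {m₁ m₂ : ℕ}

theorem X_bound {n0 n1 q0 q1 l0' l1' t0 t1 s U Ee m m' : ℝ} (ht0 : 0 < t0) (ht1 : 0 < t1)
    (hm : 2 ≤ m) (hm' : 2 ≤ m') (hn0 : n0 = (m - 1) * (m' - 1)) (hn1 : n1 = m - 1)
    (hl0 : l0' = t0) (hl1 : l1' = t0 + m' * t1) (hq0 : 0 ≤ q0) (hq0' : q0 ≤ m * m' * Ee)
    (hs : 0 ≤ s) (hs' : s ≤ 2 * (m * U) + 2 * (m * Ee)) (hq1 : q1 = m' * s) (hU : 0 ≤ U)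
    (hE : 0 ≤ Ee) :
    (q0 / n0 - l0' * (q1 / n1) / l1') ^ 4 ≤
      8 * (4 + 4 * t0 / t1) ^ 4 * (U ^ 4 + Ee ^ 4) := by
  have a1 : 0 < m - 1 := by linarith
  have a2 : 0 < m' - 1 := by linarith
  have p1 : 0 < l1' := by rw [hl1]; have : 0 < m' * t1 := by positivity
                          linarith
  have b1 : 0 ≤ q0 / n0 := by rw [hn0]; positivity
  have b2 : q0 / n0 ≤ 4 * Ee := by
    rw [hn0, div_le_iff₀ (by positivity)]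
    have : m * m' ≤ 4 * ((m - 1) * (m' - 1)) := by nlinarith
    nlinarith
  have b3 : 0 ≤ l0' * (q1 / n1) / l1' := by
    rw [hl0, hq1, hn1]
    have : 0 ≤ m' := by linarith
    positivity
  have b4 : l0' * (q1 / n1) / l1' ≤ 4 * t0 / t1 * (U + Ee) := by
    rw [hl0, hq1, hn1, div_le_iff₀ p1]
    have c1 : s ≤ 4 * (m - 1) * (U + Ee) := by nlinarith [mul_nonneg a1.le hU, mul_nonneg a1.le hE]
    have c2 : s / (m - 1) ≤ 4 * (U + Ee) := by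
      rw [div_le_iff₀ a1]; linarith
    have c3 : t0 * (m' * s / (m - 1)) = t0 * m' * (s / (m - 1)) := by ring
    rw [c3]
    have c4 : 4 * t0 / t1 * (U + Ee) * l1' = t0 * (l1' / t1) * (4 * (U + Ee)) := by
      field_simp
    rw [c4]
    have c5 : m' ≤ l1' / t1 := by
      rw [le_div_iff₀ ht1, hl1]; linarith
    have c6 : 0 ≤ s / (m - 1) := by positivity
    have c7 : t0 * m' ≤ t0 * (l1' / t1) := mul_le_mul_of_nonneg_left c5 ht0.le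
    exact mul_le_mul c7 c2 c6 (by positivity)
  set B := 4 + 4 * t0 / t1 with hB
  have hB4 : 4 ≤ B := by have : 0 ≤ 4 * t0 / t1 := by positivity
                         linarith
  have b5 : |q0 / n0 - l0' * (q1 / n1) / l1'| ≤ B * (U + Ee) := by
    rw [abs_le]
    have d1 : 0 ≤ 4 * t0 / t1 := by positivity
    constructor
    · have : 4 * t0 / t1 * (U + Ee) ≤ B * (U + Ee) :=
        mul_le_mul_of_nonneg_right (by rw [hB]; linarith) (by linarith)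
      linarith
    · have : 4 * (U + Ee) ≤ B * (U + Ee) := mul_le_mul_of_nonneg_right hB4 (by linarith)
      linarith
  have b6 : (q0 / n0 - l0' * (q1 / n1) / l1') ^ 4 ≤ (B * (U + Ee)) ^ 4 := by
    have : (q0 / n0 - l0' * (q1 / n1) / l1') ^ 4 = |q0 / n0 - l0' * (q1 / n1) / l1'| ^ 4 := by
      rw [← abs_pow, abs_of_nonneg (by positivity)]
    rw [this]
    gcongr
  refine b6.trans ?_
  rw [mul_pow]
  have b7 : (U + Ee) ^ 4 ≤ 8 * (U ^ 4 + Ee ^ 4) := by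
    have e1 : (U + Ee) ^ 2 ≤ 2 * (U ^ 2 + Ee ^ 2) := by nlinarith [sq_nonneg (U - Ee)]
    have e2 : (U + Ee) ^ 4 = ((U + Ee) ^ 2) ^ 2 := by ring
    have e3 : (2 * (U ^ 2 + Ee ^ 2)) ^ 2 ≤ 8 * (U ^ 4 + Ee ^ 4) := by
      nlinarith [sq_nonneg (U ^ 2 - Ee ^ 2)]
    rw [e2]
    refine le_trans ?_ e3
    gcongr
  have : 0 ≤ B ^ 4 := by positivity
  nlinarith

theorem main_bound {F₀ F₁ F₂ : Measure ℝ} {θ : Fin 3 → ℝ} (hθ : ∀ k, 0 < θ k)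
    (h0 : IsLaw F₀ (θ 0)) (h1 : IsLaw F₁ (θ 1)) (h2 : IsLaw F₂ (θ 2)) (Cb : ℝ) :
    ∃ K' : ℝ, 0 ≤ K' ∧ ∀ (m₁ m₂ : ℕ), 2 ≤ m₁ → 2 ≤ m₂ →
      ∀ (Ω : Type) [MeasurableSpace Ω] (P : Measure Ω) [IsProbabilityMeasure P]
        (u : Fin m₁ → Ω → ℝ) (v : Fin m₂ → Ω → ℝ) (e : Fin m₁ × Fin m₂ → Ω → ℝ),
        IsModel P F₀ F₁ F₂ u v e → ∀ (μ a₀ : ℝ) (a₁ : Fin m₁ → ℝ) (a₂ : Fin m₂ → ℝ),
        ∑ i, a₁ i ^ 2 ≤ Cb ^ 2 → ∑ j, a₂ j ^ 2 ≤ Cb ^ 2 →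
        Integrable (fun ω => (hAb P (yy μ u v e) θ a₀ a₁ a₂ ω) ^ 2) P ∧
        g3 P (yy μ u v e) θ a₀ a₁ a₂ ≤ K' * (1 / (m₁ : ℝ) ^ 2 + 1 / (m₂ : ℝ) ^ 2) := by
  obtain ⟨K, hK1, hK⟩ := exists_K F₀ F₁ F₂ θ
  have t0 := hθ 0
  have t1 := hθ 1
  have t2 := hθ 2
  set E8 := ∫ x, x ^ 8 ∂F₀ with hE8
  set U8 := ∫ x, x ^ 8 ∂F₁ with hU8
  set V8 := ∫ x, x ^ 8 ∂F₂ with hV8
  have nE8 : 0 ≤ E8 := integral_nonneg fun x => by positivity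
  have nU8 : 0 ≤ U8 := integral_nonneg fun x => by positivity
  have nV8 : 0 ≤ V8 := integral_nonneg fun x => by positivity
  set B := 4 + 4 * θ 0 / θ 1 with hB
  set B' := 4 + 4 * θ 0 / θ 2 with hB'
  have nB : 0 ≤ B := by positivity
  have nB' : 0 ≤ B' := by positivity
  set D := 12 * K ^ 2 * Cb ^ 4 + 8 * (B ^ 4 + B' ^ 4) * (U8 + V8 + E8) with hD
  have nD : 0 ≤ D := by positivity
  refine ⟨D * (1 / θ 1 ^ 2 + 1 / θ 2 ^ 2), by positivity, ?_⟩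
  intro m₁ m₂ hm1 hm2 Ω _ P _ u v e hM μ a₀ a₁ a₂ ha1 ha2
  have z1 : 0 < m₁ := by omega
  have z2 : 0 < m₂ := by omega
  have k1 : (m₁ : ℝ) ≠ 0 := by exact_mod_cast z1.ne'
  have k2 : (m₂ : ℝ) ≠ 0 := by exact_mod_cast z2.ne'
  have g1 : (2 : ℝ) ≤ m₁ := by exact_mod_cast hm1
  have g2 : (2 : ℝ) ≤ m₂ := by exact_mod_cast hm2
  haveI : Nonempty (Fin m₁) := ⟨⟨0, z1⟩⟩
  haveI : Nonempty (Fin m₂) := ⟨⟨0, z2⟩⟩
  have hA := Amat_eq hm1 hm2 hθ hM h0 h1 h2 μ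
  set x1 : Ω → ℝ := fun ω => ∑ i, a₁ i * R (yy μ u v e ω) i with hx1
  set x2 : Ω → ℝ := fun ω => ∑ j, a₂ j * C (yy μ u v e ω) j with hx2
  set U : Ω → ℝ := fun ω => (∑ i, u i ω ^ 2) / Fintype.card (Fin m₁) with hU
  set V : Ω → ℝ := fun ω => (∑ j, v j ω ^ 2) / Fintype.card (Fin m₂) with hV
  set Ee : Ω → ℝ := fun ω => (∑ p, e p ω ^ 2) / Fintype.card (Fin m₁ × Fin m₂) with hEe
  have cc : (Fintype.card (Fin m₁ × Fin m₂) : ℝ) = m₁ * m₂ := by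
    simp [Fintype.card_prod]
  have c1 : (Fintype.card (Fin m₁) : ℝ) = m₁ := by simp
  have c2 : (Fintype.card (Fin m₂) : ℝ) = m₂ := by simp
  have nU : ∀ ω, 0 ≤ U ω := fun ω => by positivity
  have nV : ∀ ω, 0 ≤ V ω := fun ω => by positivity
  have nE : ∀ ω, 0 ≤ Ee ω := fun ω => by positivity
  -- closed form
  have hcl : ∀ ω, hAb P (yy μ u v e) θ a₀ a₁ a₂ ω =
      x1 ω / l1 m₂ θ * (Qv (yy μ u v e ω) 0 / nn m₁ m₂ 0 -
        l0 θ * (Qv (yy μ u v e ω) 1 / nn m₁ m₂ 1) / l1 m₂ θ) +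
      x2 ω / l2 m₁ θ * (Qv (yy μ u v e ω) 0 / nn m₁ m₂ 0 -
        l0 θ * (Qv (yy μ u v e ω) 2 / nn m₁ m₂ 2) / l2 m₁ θ) := by
    intro ω
    rw [hAb_eq P _ hm1 hm2 hθ hA]
    obtain ⟨p0, p1, p2, -⟩ := pos_l (m₁ := m₁) (m₂ := m₂) hθ
    have q0 := p0.ne'
    have q1 := p1.ne'
    have q2 := p2.ne'
    have n0 := (nn_pos hm1 hm2 0).ne'
    have n1 := (nn_pos hm1 hm2 1).ne'
    have n2 := (nn_pos hm1 hm2 2).ne'
    simp only [Fin.sum_univ_three, eta, lam, Matrix.cons_val_zero, Matrix.cons_val_one,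
      Matrix.cons_val]
    field_simp
    ring
  -- measurability
  have mW := WW_meas hM
  have mx1 : Measurable x1 := by
    have : x1 = fun ω => ∑ t, cR m₂ (fun i => a₁ i - (∑ i, a₁ i) / m₁) t * WW u v e t ω := by
      funext ω; exact aR_yy k1 k2 μ a₁ ω
    rw [this]
    exact Finset.measurable_sum _ fun t _ => (mW t).const_mul _
  have mx2 : Measurable x2 := by
    have : x2 = fun ω => ∑ t, cC m₁ (fun i => a₂ i - (∑ i, a₂ i) / m₂) t * WW u v e t ω := by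
      funext ω; exact aC_yy k1 k2 μ a₂ ω
    rw [this]
    exact Finset.measurable_sum _ fun t _ => (mW t).const_mul _
  have mQ0 : Measurable (fun ω => Qv (yy μ u v e ω) 0) := by
    show Measurable (fun ω => ∑ i, ∑ j, E (yy μ u v e ω) (i, j) ^ 2)
    simp only [E_yy k1 k2]
    exact Finset.measurable_sum _ fun i _ => Finset.measurable_sum _ fun j _ =>
      (Finset.measurable_sum _ fun t _ => (mW t).const_mul _).pow_const 2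
  have mQ1 : Measurable (fun ω => Qv (yy μ u v e ω) 1) := by
    show Measurable (fun ω => m₂ * ∑ i, R (yy μ u v e ω) i ^ 2)
    simp only [R_yy k1 k2]
    exact (Finset.measurable_sum _ fun i _ =>
      (Finset.measurable_sum _ fun t _ => (mW t).const_mul _).pow_const 2).const_mul _
  have mQ2 : Measurable (fun ω => Qv (yy μ u v e ω) 2) := by
    show Measurable (fun ω => m₁ * ∑ i, C (yy μ u v e ω) i ^ 2)
    simp only [C_yy k1 k2]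
    exact (Finset.measurable_sum _ fun i _ =>
      (Finset.measurable_sum _ fun t _ => (mW t).const_mul _).pow_const 2).const_mul _
  have mH : Measurable (fun ω => hAb P (yy μ u v e) θ a₀ a₁ a₂ ω) := by
    have : (fun ω => hAb P (yy μ u v e) θ a₀ a₁ a₂ ω) = _ := funext hcl
    rw [this]
    exact ((mx1.div_const _).mul ((mQ0.div_const _).sub (((mQ1.div_const _).const_mul _).div_const
      _))).add ((mx2.div_const _).mul ((mQ0.div_const _).sub (((mQ2.div_const _).const_mul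
      _).div_const _)))
  -- the dominating function
  have bX1 : ∀ ω, (Qv (yy μ u v e ω) 0 / nn m₁ m₂ 0 -
        l0 θ * (Qv (yy μ u v e ω) 1 / nn m₁ m₂ 1) / l1 m₂ θ) ^ 4 ≤
        8 * B ^ 4 * (U ω ^ 4 + Ee ω ^ 4) := by
    intro ω
    have hs := sum_R_sq z1 z2 μ (fun i => u i ω) (fun j => v j ω) (fun p => e p ω)
    have hq := sum_E_sq z1 z2 μ (fun i => u i ω) (fun j => v j ω) (fun p => e p ω)
    have hn1 : 0 ≤ ∑ i, R (yy μ u v e ω) i ^ 2 :=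
      Finset.sum_nonneg fun i _ => sq_nonneg (R (yy μ u v e ω) i)
    have hn2 : 0 ≤ ∑ i, ∑ j, E (yy μ u v e ω) (i, j) ^ 2 :=
      Finset.sum_nonneg fun i _ => Finset.sum_nonneg fun j _ => sq_nonneg (E (yy μ u v e ω) (i, j))
    refine X_bound (m := m₁) (m' := m₂) (s := ∑ i, R (yy μ u v e ω) i ^ 2) t0 t1 g1 g2 rfl rfl rfl
      rfl ?_ ?_ hn1 ?_ rfl (nU ω) (nE ω)
    · exact hn2
    · refine hq.trans (le_of_eq ?_)
      simp only [hEe, cc]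
      field_simp
    · refine hs.trans (le_of_eq ?_)
      simp only [hEe, hU, cc, c1]
      field_simp
  have bX2 : ∀ ω, (Qv (yy μ u v e ω) 0 / nn m₁ m₂ 0 -
        l0 θ * (Qv (yy μ u v e ω) 2 / nn m₁ m₂ 2) / l2 m₁ θ) ^ 4 ≤
        8 * B' ^ 4 * (V ω ^ 4 + Ee ω ^ 4) := by
    intro ω
    have hs := sum_C_sq z1 z2 μ (fun i => u i ω) (fun j => v j ω) (fun p => e p ω)
    have hq := sum_E_sq z1 z2 μ (fun i => u i ω) (fun j => v j ω) (fun p => e p ω)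
    have hn1 : 0 ≤ ∑ i, C (yy μ u v e ω) i ^ 2 :=
      Finset.sum_nonneg fun i _ => sq_nonneg (C (yy μ u v e ω) i)
    have hn2 : 0 ≤ ∑ i, ∑ j, E (yy μ u v e ω) (i, j) ^ 2 :=
      Finset.sum_nonneg fun i _ => Finset.sum_nonneg fun j _ => sq_nonneg (E (yy μ u v e ω) (i, j))
    refine X_bound (m := m₂) (m' := m₁) (s := ∑ i, C (yy μ u v e ω) i ^ 2) t0 t2 g2 g1
      (mul_comm _ _) rfl rfl
      rfl ?_ ?_ hn1 ?_ rfl (nV ω) (nE ω)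
    · exact hn2
    · refine hq.trans (le_of_eq ?_)
      simp only [hEe, cc]
      field_simp
    · refine hs.trans (le_of_eq ?_)
      simp only [hEe, hV, cc, c2]
      field_simp
  -- integrals of the pieces
  have L := LW_law (m₁ := m₁) (m₂ := m₂) h0 h1 h2
  have iu : ∀ i, Integrable (fun ω => u i ω ^ 8) P := fun i =>
    WW_integrable hM (Sum.inl i) (fun x => x ^ 8) (by fun_prop) h1.eighth
  have iv : ∀ j, Integrable (fun ω => v j ω ^ 8) P := fun j =>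
    WW_integrable hM (Sum.inr (Sum.inl j)) (fun x => x ^ 8) (by fun_prop) h2.eighth
  have ie : ∀ p, Integrable (fun ω => e p ω ^ 8) P := fun p =>
    WW_integrable hM (Sum.inr (Sum.inr p)) (fun x => x ^ 8) (by fun_prop) h0.eighth
  have vu : ∀ i, ∫ ω, u i ω ^ 8 ∂P = U8 := fun i =>
    WW_int hM (Sum.inl i) (fun x => x ^ 8) (by fun_prop)
  have vv : ∀ j, ∫ ω, v j ω ^ 8 ∂P = V8 := fun j =>
    WW_int hM (Sum.inr (Sum.inl j)) (fun x => x ^ 8) (by fun_prop)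
  have ve : ∀ p, ∫ ω, e p ω ^ 8 ∂P = E8 := fun p =>
    WW_int hM (Sum.inr (Sum.inr p)) (fun x => x ^ 8) (by fun_prop)
  have gen : ∀ {T : Type} [Fintype T] [Nonempty T] (X : T → Ω → ℝ) (c : ℝ),
      (∀ t, Integrable (fun ω => X t ω ^ 8) P) → (∀ t, ∫ ω, X t ω ^ 8 ∂P = c) →
      (∀ t, Measurable (X t)) →
      Integrable (fun ω => ((∑ t, X t ω ^ 2) / Fintype.card T) ^ 4) P ∧
      ∫ ω, ((∑ t, X t ω ^ 2) / Fintype.card T) ^ 4 ∂P ≤ c := by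
    intro T _ _ X c hi hc hm
    have hint : Integrable (fun ω => (∑ t, X t ω ^ 8) / Fintype.card T) P :=
      (integrable_finsetSum _ fun t _ => hi t).div_const _
    have hI : Integrable (fun ω => ((∑ t, X t ω ^ 2) / Fintype.card T) ^ 4) P := by
      refine hint.mono' (((Finset.measurable_sum _ fun t _ =>
        (hm t).pow_const 2).div_const _).pow_const 4).aestronglyMeasurable ?_
      filter_upwards with ω
      rw [Real.norm_eq_abs, abs_of_nonneg (by positivity)]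
      exact avg_pow4 (fun t => X t ω)
    refine ⟨hI, (integral_mono hI hint fun ω => avg_pow4 (fun t => X t ω)).trans (le_of_eq ?_)⟩
    rw [integral_div, integral_finsetSum _ fun t _ => hi t]
    simp only [hc, Finset.sum_const, Finset.card_univ, nsmul_eq_mul]
    have : (Fintype.card T : ℝ) ≠ 0 := by exact_mod_cast Fintype.card_ne_zero
    field_simp
  obtain ⟨jU, bU⟩ := gen u U8 iu vu hM.meas_u
  obtain ⟨jV, bV⟩ := gen v V8 iv vv hM.meas_v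
  obtain ⟨jE, bE⟩ := gen e E8 ie ve hM.meas_e
  have LL := fun c : TT m₁ m₂ → ℝ => lin_model hM h0 h1 h2 K (fun t => (hK m₁ m₂ t).1)
    (fun t => (hK m₁ m₂ t).2) c
  have ex1 : ∀ ω, x1 ω = ∑ t, cR m₂ (fun i => a₁ i - (∑ i, a₁ i) / m₁) t * WW u v e t ω :=
    fun ω => aR_yy k1 k2 μ a₁ ω
  have ex2 : ∀ ω, x2 ω = ∑ t, cC m₁ (fun i => a₂ i - (∑ i, a₂ i) / m₂) t * WW u v e t ω :=
    fun ω => aC_yy k1 k2 μ a₂ ω
  have jx1 : Integrable (fun ω => x1 ω ^ 4) P := by simp only [ex1]; exact (LL _).1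
  have jx2 : Integrable (fun ω => x2 ω ^ 4) P := by simp only [ex2]; exact (LL _).1
  have one1 : (1 : ℝ) + 1 / m₂ ≤ 2 := by
    have : 1 / (m₂ : ℝ) ≤ 1 := by rw [div_le_one (by linarith)]; linarith
    linarith
  have one2 : (1 : ℝ) + 1 / m₁ ≤ 2 := by
    have : 1 / (m₁ : ℝ) ≤ 1 := by rw [div_le_one (by linarith)]; linarith
    linarith
  have bx1 : ∫ ω, x1 ω ^ 4 ∂P ≤ 12 * K ^ 2 * Cb ^ 4 := by
    simp only [ex1]
    refine (LL _).2.2.2.trans ?_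
    have e1 := cR_sq (m₁ := m₁) k2 (fun i => a₁ i - (∑ i, a₁ i) / m₁) 1 1 1
    have e2 : ∑ t : TT m₁ m₂, cR m₂ (fun i => a₁ i - (∑ i, a₁ i) / m₁) t ^ 2 =
        (∑ i, (a₁ i - (∑ i, a₁ i) / m₁) ^ 2) * (1 + 1 / m₂) := by
      rw [← e1]
      refine Finset.sum_congr rfl fun t _ => ?_
      rcases t with i | j | p <;> simp
    rw [e2]
    have e3 := sum_centred_sq k1 a₁
    have e4 : 0 ≤ ∑ i, (a₁ i - (∑ i, a₁ i) / m₁) ^ 2 := Finset.sum_nonneg fun _ _ => sq_nonneg _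
    have e5 : (∑ i, (a₁ i - (∑ i, a₁ i) / m₁) ^ 2) * (1 + 1 / m₂) ≤ Cb ^ 2 * 2 :=
      mul_le_mul (e3.trans ha1) one1 (by positivity) (by positivity)
    have e6 : ((∑ i, (a₁ i - (∑ i, a₁ i) / m₁) ^ 2) * (1 + 1 / m₂)) ^ 2 ≤ (Cb ^ 2 * 2) ^ 2 := by
      have : 0 ≤ (∑ i, (a₁ i - (∑ i, a₁ i) / m₁) ^ 2) * (1 + 1 / m₂) := by positivity
      gcongr
    refine (mul_le_mul_of_nonneg_left e6 (by positivity)).trans (le_of_eq ?_)
    ring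
  have bx2 : ∫ ω, x2 ω ^ 4 ∂P ≤ 12 * K ^ 2 * Cb ^ 4 := by
    simp only [ex2]
    refine (LL _).2.2.2.trans ?_
    have e1 := cC_sq (m₂ := m₂) k1 (fun i => a₂ i - (∑ i, a₂ i) / m₂) 1 1 1
    have e2 : ∑ t : TT m₁ m₂, cC m₁ (fun i => a₂ i - (∑ i, a₂ i) / m₂) t ^ 2 =
        (∑ i, (a₂ i - (∑ i, a₂ i) / m₂) ^ 2) * (1 + 1 / m₁) := by
      rw [← e1]
      refine Finset.sum_congr rfl fun t _ => ?_
      rcases t with i | j | p <;> simp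
    rw [e2]
    have e3 := sum_centred_sq k2 a₂
    have e4 : 0 ≤ ∑ i, (a₂ i - (∑ i, a₂ i) / m₂) ^ 2 := Finset.sum_nonneg fun _ _ => sq_nonneg _
    have e5 : (∑ i, (a₂ i - (∑ i, a₂ i) / m₂) ^ 2) * (1 + 1 / m₁) ≤ Cb ^ 2 * 2 :=
      mul_le_mul (e3.trans ha2) one2 (by positivity) (by positivity)
    have e6 : ((∑ i, (a₂ i - (∑ i, a₂ i) / m₂) ^ 2) * (1 + 1 / m₁)) ^ 2 ≤ (Cb ^ 2 * 2) ^ 2 := by
      have : 0 ≤ (∑ i, (a₂ i - (∑ i, a₂ i) / m₂) ^ 2) * (1 + 1 / m₁) := by positivity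
      gcongr
    refine (mul_le_mul_of_nonneg_left e6 (by positivity)).trans (le_of_eq ?_)
    ring
  set G : Ω → ℝ := fun ω => 1 / (m₂ * θ 1) ^ 2 * (x1 ω ^ 4 + 8 * B ^ 4 * (U ω ^ 4 + Ee ω ^ 4)) +
    1 / (m₁ * θ 2) ^ 2 * (x2 ω ^ 4 + 8 * B' ^ 4 * (V ω ^ 4 + Ee ω ^ 4)) with hG
  have jG1 : Integrable (fun ω => x1 ω ^ 4 + 8 * B ^ 4 * (U ω ^ 4 + Ee ω ^ 4)) P :=
    jx1.add ((jU.add jE).const_mul _)
  have jG2 : Integrable (fun ω => x2 ω ^ 4 + 8 * B' ^ 4 * (V ω ^ 4 + Ee ω ^ 4)) P :=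
    jx2.add ((jV.add jE).const_mul _)
  have jG : Integrable G P := (jG1.const_mul _).add (jG2.const_mul _)
  have hdom : ∀ ω, (hAb P (yy μ u v e) θ a₀ a₁ a₂ ω) ^ 2 ≤ G ω := by
    intro ω
    rw [hcl]
    have d1 := bX1 ω
    have d2 := bX2 ω
    set X1 := Qv (yy μ u v e ω) 0 / nn m₁ m₂ 0 -
        l0 θ * (Qv (yy μ u v e ω) 1 / nn m₁ m₂ 1) / l1 m₂ θ
    set X2 := Qv (yy μ u v e ω) 0 / nn m₁ m₂ 0 -
        l0 θ * (Qv (yy μ u v e ω) 2 / nn m₁ m₂ 2) / l2 m₁ θ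
    obtain ⟨p0, p1, p2, -⟩ := pos_l (m₁ := m₁) (m₂ := m₂) hθ
    have f1 : (x1 ω / l1 m₂ θ * X1) ^ 2 ≤ 1 / (m₂ * θ 1) ^ 2 * ((x1 ω ^ 4 + X1 ^ 4) / 2) := by
      have e1 : (x1 ω / l1 m₂ θ * X1) ^ 2 = 1 / (l1 m₂ θ) ^ 2 * (x1 ω ^ 2 * X1 ^ 2) := by
        field_simp
      rw [e1]
      have e2 : 1 / (l1 m₂ θ) ^ 2 ≤ 1 / (m₂ * θ 1) ^ 2 := by
        apply one_div_le_one_div_of_le (by positivity)
        have : (m₂ : ℝ) * θ 1 ≤ l1 m₂ θ := by simp only [l1]; linarith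
        gcongr
      have e3 : x1 ω ^ 2 * X1 ^ 2 ≤ (x1 ω ^ 4 + X1 ^ 4) / 2 := by
        nlinarith [sq_nonneg (x1 ω ^ 2 - X1 ^ 2)]
      exact mul_le_mul e2 e3 (by positivity) (by positivity)
    have f2 : (x2 ω / l2 m₁ θ * X2) ^ 2 ≤ 1 / (m₁ * θ 2) ^ 2 * ((x2 ω ^ 4 + X2 ^ 4) / 2) := by
      have e1 : (x2 ω / l2 m₁ θ * X2) ^ 2 = 1 / (l2 m₁ θ) ^ 2 * (x2 ω ^ 2 * X2 ^ 2) := by
        field_simp
      rw [e1]
      have e2 : 1 / (l2 m₁ θ) ^ 2 ≤ 1 / (m₁ * θ 2) ^ 2 := by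
        apply one_div_le_one_div_of_le (by positivity)
        have : (m₁ : ℝ) * θ 2 ≤ l2 m₁ θ := by simp only [l2]; linarith
        gcongr
      have e3 : x2 ω ^ 2 * X2 ^ 2 ≤ (x2 ω ^ 4 + X2 ^ 4) / 2 := by
        nlinarith [sq_nonneg (x2 ω ^ 2 - X2 ^ 2)]
      exact mul_le_mul e2 e3 (by positivity) (by positivity)
    have f3 : (x1 ω / l1 m₂ θ * X1 + x2 ω / l2 m₁ θ * X2) ^ 2 ≤
        2 * (x1 ω / l1 m₂ θ * X1) ^ 2 + 2 * (x2 ω / l2 m₁ θ * X2) ^ 2 := by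
      nlinarith [sq_nonneg (x1 ω / l1 m₂ θ * X1 - x2 ω / l2 m₁ θ * X2)]
    have f4 : 1 / (m₂ * θ 1) ^ 2 * (x1 ω ^ 4 + X1 ^ 4) ≤
        1 / (m₂ * θ 1) ^ 2 * (x1 ω ^ 4 + 8 * B ^ 4 * (U ω ^ 4 + Ee ω ^ 4)) :=
      mul_le_mul_of_nonneg_left (by linarith) (by positivity)
    have f5 : 1 / (m₁ * θ 2) ^ 2 * (x2 ω ^ 4 + X2 ^ 4) ≤
        1 / (m₁ * θ 2) ^ 2 * (x2 ω ^ 4 + 8 * B' ^ 4 * (V ω ^ 4 + Ee ω ^ 4)) :=
      mul_le_mul_of_nonneg_left (by linarith) (by positivity)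
    simp only [hG]
    linarith
  have hI : Integrable (fun ω => (hAb P (yy μ u v e) θ a₀ a₁ a₂ ω) ^ 2) P := by
    refine jG.mono' (mH.pow_const 2).aestronglyMeasurable ?_
    filter_upwards with ω
    rw [Real.norm_eq_abs, abs_of_nonneg (sq_nonneg _)]
    exact hdom ω
  refine ⟨hI, ?_⟩
  unfold g3
  refine (integral_mono hI jG hdom).trans ?_
  have w1 : ∫ ω, (x1 ω ^ 4 + 8 * B ^ 4 * (U ω ^ 4 + Ee ω ^ 4)) ∂P ≤ D := by
    have jj : Integrable (fun ω => 8 * B ^ 4 * (U ω ^ 4 + Ee ω ^ 4)) P := (jU.add jE).const_mul _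
    rw [integral_add jx1 jj, integral_const_mul, integral_add jU jE]
    have w2 : 8 * B ^ 4 * (∫ ω, U ω ^ 4 ∂P + ∫ ω, Ee ω ^ 4 ∂P) ≤ 8 * B ^ 4 * (U8 + E8) :=
      mul_le_mul_of_nonneg_left (add_le_add bU bE) (by positivity)
    have w3 : 8 * B ^ 4 * (U8 + E8) ≤ 8 * (B ^ 4 + B' ^ 4) * (U8 + V8 + E8) := by
      have : 0 ≤ B ^ 4 := by positivity
      have : 0 ≤ B' ^ 4 := by positivity
      apply mul_le_mul (by linarith) (by linarith) (by positivity) (by positivity)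
    linarith
  have w4 : ∫ ω, (x2 ω ^ 4 + 8 * B' ^ 4 * (V ω ^ 4 + Ee ω ^ 4)) ∂P ≤ D := by
    have jj : Integrable (fun ω => 8 * B' ^ 4 * (V ω ^ 4 + Ee ω ^ 4)) P := (jV.add jE).const_mul _
    rw [integral_add jx2 jj, integral_const_mul, integral_add jV jE]
    have w2 : 8 * B' ^ 4 * (∫ ω, V ω ^ 4 ∂P + ∫ ω, Ee ω ^ 4 ∂P) ≤ 8 * B' ^ 4 * (V8 + E8) :=
      mul_le_mul_of_nonneg_left (add_le_add bV bE) (by positivity)
    have w3 : 8 * B' ^ 4 * (V8 + E8) ≤ 8 * (B ^ 4 + B' ^ 4) * (U8 + V8 + E8) := by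
      have : 0 ≤ B ^ 4 := by positivity
      have : 0 ≤ B' ^ 4 := by positivity
      apply mul_le_mul (by linarith) (by linarith) (by positivity) (by positivity)
    linarith
  have w5 : ∫ ω, G ω ∂P = 1 / (m₂ * θ 1) ^ 2 * ∫ ω, (x1 ω ^ 4 + 8 * B ^ 4 * (U ω ^ 4 + Ee ω ^ 4)) ∂P
      + 1 / (m₁ * θ 2) ^ 2 * ∫ ω, (x2 ω ^ 4 + 8 * B' ^ 4 * (V ω ^ 4 + Ee ω ^ 4)) ∂P := by
    rw [← integral_const_mul, ← integral_const_mul]
    exact integral_add (jG1.const_mul _) (jG2.const_mul _)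
  rw [w5]
  have w6 : 1 / ((m₂ : ℝ) * θ 1) ^ 2 * ∫ ω, (x1 ω ^ 4 + 8 * B ^ 4 * (U ω ^ 4 + Ee ω ^ 4)) ∂P ≤
      1 / (m₂ * θ 1) ^ 2 * D := mul_le_mul_of_nonneg_left w1 (by positivity)
  have w7 : 1 / ((m₁ : ℝ) * θ 2) ^ 2 * ∫ ω, (x2 ω ^ 4 + 8 * B' ^ 4 * (V ω ^ 4 + Ee ω ^ 4)) ∂P ≤
      1 / (m₁ * θ 2) ^ 2 * D := mul_le_mul_of_nonneg_left w4 (by positivity)
  have w8 : 1 / ((m₂ : ℝ) * θ 1) ^ 2 * D + 1 / ((m₁ : ℝ) * θ 2) ^ 2 * D ≤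
      D * (1 / θ 1 ^ 2 + 1 / θ 2 ^ 2) * (1 / (m₁ : ℝ) ^ 2 + 1 / (m₂ : ℝ) ^ 2) := by
    have e1 : 1 / ((m₂ : ℝ) * θ 1) ^ 2 * D + 1 / ((m₁ : ℝ) * θ 2) ^ 2 * D =
      D * (1 / θ 1 ^ 2 * (1 / (m₂ : ℝ) ^ 2) + 1 / θ 2 ^ 2 * (1 / (m₁ : ℝ) ^ 2)) := by
      field_simp
    rw [e1, mul_assoc]
    apply mul_le_mul_of_nonneg_left _ nD
    have n1 : 0 ≤ 1 / θ 1 ^ 2 * (1 / (m₁ : ℝ) ^ 2) := by positivity
    have n2 : 0 ≤ 1 / θ 2 ^ 2 * (1 / (m₂ : ℝ) ^ 2) := by positivity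
    nlinarith
  linarith

end Pool.Agent.Q39.EB
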