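import Pool.Agent.Q39.EB.Lin

namespace Pool.Agent.Q39.EB

open Finset MeasureTheory ProbabilityTheory

variable {m₁ m₂ : ℕ}

/-- centring matrix -/
noncomputable def cen (m : ℕ) (i i' : Fin m) : ℝ := (if i = i' then 1 else 0) - 1 / m

theorem sum_cen {m : ℕ} (hm : (m : ℝ) ≠ 0) (i : Fin m) : ∑ i', cen m i i' = 0 := by
  simp only [cen, Finset.sum_sub_distrib, Finset.sum_const, Finset.card_univ, Fintype.card_fin,
    nsmul_eq_mul, Finset.sum_ite_eq, Finset.mem_univ, if_true]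
  field_simp
  ring

theorem sum_cen_mul {m : ℕ} (i : Fin m) (x : Fin m → ℝ) :
    ∑ i', cen m i i' * x i' = x i - (∑ i', x i') / m := by
  simp only [cen, sub_mul, Finset.sum_sub_distrib, ite_mul, one_mul, zero_mul, Finset.sum_ite_eq,
    Finset.mem_univ, if_true, ← Finset.mul_sum]
  ring

theorem sum_cen_sq {m : ℕ} (hm : (m : ℝ) ≠ 0) (i : Fin m) : ∑ i', cen m i i' ^ 2 = 1 - 1 / m := by
  have h := sum_cen_mul i (fun i' => cen m i i')
  simp only [sum_cen hm, zero_div, sub_zero] at h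
  have e : ∑ i', cen m i i' ^ 2 = ∑ i', cen m i i' * cen m i i' :=
    Finset.sum_congr rfl fun _ _ => by ring
  rw [e, h]
  simp [cen]

/-- the observations -/
def obs (μ : ℝ) (u : Fin m₁ → ℝ) (v : Fin m₂ → ℝ) (e : Fin m₁ × Fin m₂ → ℝ)
    (p : Fin m₁ × Fin m₂) : ℝ := μ + u p.1 + v p.2 + e p

theorem row_lin (h2 : (m₂ : ℝ) ≠ 0) (μ : ℝ) (u : Fin m₁ → ℝ) (v : Fin m₂ → ℝ)
    (e : Fin m₁ × Fin m₂ → ℝ) (α : Fin m₁ → ℝ) (hα : ∑ i, α i = 0) :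
    ∑ i, α i * ((∑ j, obs μ u v e (i, j)) / m₂) =
      ∑ i, α i * u i + ∑ p : Fin m₁ × Fin m₂, α p.1 / m₂ * e p := by
  rw [Fintype.sum_prod_type, ← Finset.sum_add_distrib]
  have e1 : ∀ i, α i * ((∑ j, obs μ u v e (i, j)) / m₂) =
      α i * (μ + (∑ j, v j) / m₂) + (α i * u i + ∑ j, α i / m₂ * e (i, j)) := by
    intro i
    simp only [obs, Finset.sum_add_distrib, Finset.sum_const, Finset.card_univ, Fintype.card_fin,
      nsmul_eq_mul, ← Finset.mul_sum]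
    field_simp
    ring
  simp only [e1]
  rw [Finset.sum_add_distrib, ← Finset.sum_mul, hα, zero_mul, zero_add]

theorem col_lin (h1 : (m₁ : ℝ) ≠ 0) (μ : ℝ) (u : Fin m₁ → ℝ) (v : Fin m₂ → ℝ)
    (e : Fin m₁ × Fin m₂ → ℝ) (α : Fin m₂ → ℝ) (hα : ∑ i, α i = 0) :
    ∑ j, α j * ((∑ i, obs μ u v e (i, j)) / m₁) =
      ∑ j, α j * v j + ∑ p : Fin m₁ × Fin m₂, α p.2 / m₁ * e p := by
  rw [Fintype.sum_prod_type_right, ← Finset.sum_add_distrib]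
  have e1 : ∀ j, α j * ((∑ i, obs μ u v e (i, j)) / m₁) =
      α j * (μ + (∑ i, u i) / m₁) + (α j * v j + ∑ i, α j / m₁ * e (i, j)) := by
    intro i
    simp only [obs, Finset.sum_add_distrib, Finset.sum_const, Finset.card_univ, Fintype.card_fin,
      nsmul_eq_mul, ← Finset.mul_sum]
    field_simp
    ring
  simp only [e1]
  rw [Finset.sum_add_distrib, ← Finset.sum_mul, hα, zero_mul, zero_add]

theorem R_cen (y : Fin m₁ × Fin m₂ → ℝ) (i : Fin m₁) :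
    R y i = ∑ i', cen m₁ i i' * ((∑ j, y (i', j)) / m₂) := by
  rw [sum_cen_mul, R, gmean, ← Finset.sum_div, div_div, mul_comm (m₁ : ℝ)]

theorem C_cen (y : Fin m₁ × Fin m₂ → ℝ) (j : Fin m₂) :
    C y j = ∑ j', cen m₂ j j' * ((∑ i, y (i, j')) / m₁) := by
  rw [sum_cen_mul, C, gmean, ← Finset.sum_div, div_div, Finset.sum_comm]

theorem aR (y : Fin m₁ × Fin m₂ → ℝ) (a : Fin m₁ → ℝ) :
    ∑ i, a i * R y i = ∑ i, (a i - (∑ i, a i) / m₁) * ((∑ j, y (i, j)) / m₂) := by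
  simp only [R, mul_sub, sub_mul, Finset.sum_sub_distrib, gmean]
  congr 1
  rw [← Finset.sum_mul, ← Finset.mul_sum, ← Finset.sum_div]
  ring

theorem aC (y : Fin m₁ × Fin m₂ → ℝ) (a : Fin m₂ → ℝ) :
    ∑ j, a j * C y j = ∑ j, (a j - (∑ j, a j) / m₂) * ((∑ i, y (i, j)) / m₁) := by
  simp only [C, mul_sub, sub_mul, Finset.sum_sub_distrib, gmean]
  congr 1
  rw [← Finset.sum_mul, ← Finset.mul_sum, ← Finset.sum_div, Finset.sum_comm]
  ring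

theorem sum_centred {m : ℕ} (hm : (m : ℝ) ≠ 0) (a : Fin m → ℝ) :
    ∑ i, (a i - (∑ i, a i) / m) = 0 := by
  rw [Finset.sum_sub_distrib, Finset.sum_const, Finset.card_univ, Fintype.card_fin, nsmul_eq_mul]
  field_simp
  ring

theorem sum_centred_sq {m : ℕ} (hm : (m : ℝ) ≠ 0) (a : Fin m → ℝ) :
    ∑ i, (a i - (∑ i, a i) / m) ^ 2 ≤ ∑ i, a i ^ 2 := by
  have h := sum_centred hm a
  set s := (∑ i, a i) / m with hs
  have e : ∀ i, a i ^ 2 = (a i - s) ^ 2 + 2 * s * (a i - s) + s ^ 2 := fun i => by ring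
  have e1 : ∑ i, a i ^ 2 = ∑ i, (a i - s) ^ 2 + 2 * s * ∑ i, (a i - s) + ∑ _i : Fin m, s ^ 2 := by
    rw [Finset.mul_sum, ← Finset.sum_add_distrib, ← Finset.sum_add_distrib]
    exact Finset.sum_congr rfl fun i _ => e i
  rw [e1, h, mul_zero, add_zero]
  have : 0 ≤ ∑ _i : Fin m, s ^ 2 := Finset.sum_nonneg fun _ _ => sq_nonneg _
  linarith

theorem E_cen (h1 : (m₁ : ℝ) ≠ 0) (h2 : (m₂ : ℝ) ≠ 0) (y : Fin m₁ × Fin m₂ → ℝ) (i : Fin m₁)
    (j : Fin m₂) : E y (i, j) = ∑ i', cen m₁ i i' * ∑ j', cen m₂ j j' * y (i', j') := by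
  simp only [sum_cen_mul, E, R, C, gmean]
  simp only [Finset.sum_sub_distrib, ← Finset.sum_div, mul_sub]
  rw [Finset.sum_comm]
  field_simp
  ring

theorem E_obs (h1 : (m₁ : ℝ) ≠ 0) (h2 : (m₂ : ℝ) ≠ 0) (μ : ℝ) (u : Fin m₁ → ℝ) (v : Fin m₂ → ℝ)
    (e : Fin m₁ × Fin m₂ → ℝ) (i : Fin m₁) (j : Fin m₂) :
    E (obs μ u v e) (i, j) =
      ∑ p : Fin m₁ × Fin m₂, (cen m₁ i p.1 * cen m₂ j p.2) * e p := by
  rw [E_cen h1 h2, Fintype.sum_prod_type]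
  have e1 : ∀ i', ∑ j', cen m₂ j j' * obs μ u v e (i', j') =
      (∑ j', cen m₂ j j' * v j') + ∑ j', cen m₂ j j' * e (i', j') := by
    intro i'
    have : ∀ j', cen m₂ j j' * obs μ u v e (i', j') =
        cen m₂ j j' * (μ + u i') + (cen m₂ j j' * v j' + cen m₂ j j' * e (i', j')) := by
      intro j'; simp only [obs]; ring
    simp only [this, Finset.sum_add_distrib, ← Finset.sum_mul, sum_cen h2, zero_mul, zero_add]
  simp only [e1]
  set A := ∑ j', cen m₂ j j' * v j' with hA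
  have e2 : ∑ i', cen m₁ i i' * (A + ∑ j', cen m₂ j j' * e (i', j')) =
      (∑ i', cen m₁ i i') * A + ∑ i', ∑ j', (cen m₁ i i' * cen m₂ j j') * e (i', j') := by
    rw [Finset.sum_mul, ← Finset.sum_add_distrib]
    refine Finset.sum_congr rfl fun i' _ => ?_
    rw [mul_add]
    congr 1
    rw [Finset.mul_sum]
    exact Finset.sum_congr rfl fun _ _ => by ring
  rw [e2, sum_cen h1, zero_mul, zero_add]

/-- index set of the basic variables -/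
abbrev TT (m₁ m₂ : ℕ) := Fin m₁ ⊕ (Fin m₂ ⊕ (Fin m₁ × Fin m₂))

/-- coefficients of a row contrast -/
noncomputable def cR (m₂ : ℕ) (α : Fin m₁ → ℝ) : TT m₁ m₂ → ℝ :=
  Sum.elim α (Sum.elim (fun _ => 0) (fun p => α p.1 / m₂))

/-- coefficients of a column contrast -/
noncomputable def cC (m₁ : ℕ) (α : Fin m₂ → ℝ) : TT m₁ m₂ → ℝ :=
  Sum.elim (fun _ => 0) (Sum.elim α (fun p => α p.2 / m₁))

/-- coefficients of a residual -/
noncomputable def cE (i : Fin m₁) (j : Fin m₂) : TT m₁ m₂ → ℝ :=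
  Sum.elim (fun _ => 0) (Sum.elim (fun _ => 0) (fun p => cen m₁ i p.1 * cen m₂ j p.2))

theorem cR_sum (α : Fin m₁ → ℝ) (u : Fin m₁ → ℝ) (v : Fin m₂ → ℝ) (e : Fin m₁ × Fin m₂ → ℝ) :
    ∑ t, cR m₂ α t * Sum.elim u (Sum.elim v e) t =
      ∑ i, α i * u i + ∑ p : Fin m₁ × Fin m₂, α p.1 / m₂ * e p := by
  simp [cR, Fintype.sum_sum_type]

theorem cC_sum (α : Fin m₂ → ℝ) (u : Fin m₁ → ℝ) (v : Fin m₂ → ℝ) (e : Fin m₁ × Fin m₂ → ℝ) :
    ∑ t, cC m₁ α t * Sum.elim u (Sum.elim v e) t =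
      ∑ i, α i * v i + ∑ p : Fin m₁ × Fin m₂, α p.2 / m₁ * e p := by
  simp [cC, Fintype.sum_sum_type]

theorem cE_sum (i : Fin m₁) (j : Fin m₂) (u : Fin m₁ → ℝ) (v : Fin m₂ → ℝ)
    (e : Fin m₁ × Fin m₂ → ℝ) :
    ∑ t, cE i j t * Sum.elim u (Sum.elim v e) t =
      ∑ p : Fin m₁ × Fin m₂, (cen m₁ i p.1 * cen m₂ j p.2) * e p := by
  simp [cE, Fintype.sum_sum_type]

/-- quadratic sums -/
theorem cR_sq (h2 : (m₂ : ℝ) ≠ 0) (α : Fin m₁ → ℝ) (s1 s2 s0 : ℝ) :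
    ∑ t, cR m₂ α t ^ 2 * Sum.elim (fun _ : Fin m₁ => s1) (Sum.elim (fun _ : Fin m₂ => s2)
      (fun _ : Fin m₁ × Fin m₂ => s0)) t = (∑ i, α i ^ 2) * (s1 + s0 / m₂) := by
  simp only [cR, Fintype.sum_sum_type, Sum.elim_inl, Sum.elim_inr, Fintype.sum_prod_type,
    Finset.sum_const, Finset.card_univ, Fintype.card_fin, nsmul_eq_mul, ← Finset.sum_mul,
    ← Finset.mul_sum, div_pow, ← Finset.sum_div]
  field_simp
  ring

theorem cC_sq (h1 : (m₁ : ℝ) ≠ 0) (α : Fin m₂ → ℝ) (s1 s2 s0 : ℝ) :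
    ∑ t, cC m₁ α t ^ 2 * Sum.elim (fun _ : Fin m₁ => s1) (Sum.elim (fun _ : Fin m₂ => s2)
      (fun _ : Fin m₁ × Fin m₂ => s0)) t = (∑ i, α i ^ 2) * (s2 + s0 / m₁) := by
  simp only [cC, Fintype.sum_sum_type, Sum.elim_inl, Sum.elim_inr, Fintype.sum_prod_type,
    Finset.sum_const, Finset.card_univ, Fintype.card_fin, nsmul_eq_mul, ← Finset.sum_mul,
    ← Finset.mul_sum, div_pow, ← Finset.sum_div]
  field_simp
  ring

theorem cE_sq (h1 : (m₁ : ℝ) ≠ 0) (h2 : (m₂ : ℝ) ≠ 0) (i : Fin m₁) (j : Fin m₂) (s1 s2 s0 : ℝ) :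
    ∑ t, cE i j t ^ 2 * Sum.elim (fun _ : Fin m₁ => s1) (Sum.elim (fun _ : Fin m₂ => s2)
      (fun _ : Fin m₁ × Fin m₂ => s0)) t = (1 - 1 / m₁) * (1 - 1 / m₂) * s0 := by
  simp only [cE, Fintype.sum_sum_type, Sum.elim_inl, Sum.elim_inr, Fintype.sum_prod_type,
    mul_pow, mul_assoc]
  simp only [← Finset.mul_sum, ← Finset.sum_mul, sum_cen_sq h1, sum_cen_sq h2]
  simp

/-! ### The model -/

variable {Ω : Type} [MeasurableSpace Ω] {P : Measure Ω} [IsProbabilityMeasure P]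
  {F₀ F₁ F₂ : Measure ℝ} {u : Fin m₁ → Ω → ℝ} {v : Fin m₂ → Ω → ℝ} {e : Fin m₁ × Fin m₂ → Ω → ℝ}
  {θ : Fin 3 → ℝ}

/-- the basic variables -/
def WW (u : Fin m₁ → Ω → ℝ) (v : Fin m₂ → Ω → ℝ) (e : Fin m₁ × Fin m₂ → Ω → ℝ) :
    TT m₁ m₂ → Ω → ℝ := Sum.elim u (Sum.elim v e)

theorem WW_apply (t : TT m₁ m₂) (ω : Ω) : WW u v e t ω =
    Sum.elim (fun i => u i ω) (Sum.elim (fun j => v j ω) (fun p => e p ω)) t := by
  rcases t with i | j | p <;> rfl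

/-- the law of a basic variable -/
def LW (F₀ F₁ F₂ : Measure ℝ) : TT m₁ m₂ → Measure ℝ :=
  Sum.elim (fun _ => F₁) (Sum.elim (fun _ => F₂) (fun _ => F₀))

theorem WW_meas (h : IsModel P F₀ F₁ F₂ u v e) (t : TT m₁ m₂) : Measurable (WW u v e t) := by
  rcases t with i | j | p
  · exact h.meas_u i
  · exact h.meas_v j
  · exact h.meas_e p

theorem WW_law (h : IsModel P F₀ F₁ F₂ u v e) (t : TT m₁ m₂) :
    P.map (WW u v e t) = LW F₀ F₁ F₂ t := by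
  rcases t with i | j | p
  · exact h.law_u i
  · exact h.law_v j
  · exact h.law_e p

theorem WW_int (h : IsModel P F₀ F₁ F₂ u v e) (t : TT m₁ m₂) (f : ℝ → ℝ) (hf : Measurable f) :
    ∫ ω, f (WW u v e t ω) ∂P = ∫ x, f x ∂(LW F₀ F₁ F₂ t) := by
  rw [← WW_law h t, integral_map (WW_meas h t).aemeasurable hf.aestronglyMeasurable]

theorem WW_integrable (h : IsModel P F₀ F₁ F₂ u v e) (t : TT m₁ m₂) (f : ℝ → ℝ)
    (hf : Measurable f) (hi : Integrable f (LW F₀ F₁ F₂ t)) :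
    Integrable (fun ω => f (WW u v e t ω)) P := by
  rw [← WW_law h t] at hi
  exact (integrable_map_measure hf.aestronglyMeasurable (WW_meas h t).aemeasurable).1 hi

/-- the variance of a basic variable -/
def sW (θ : Fin 3 → ℝ) : TT m₁ m₂ → ℝ :=
  Sum.elim (fun _ => θ 1) (Sum.elim (fun _ => θ 2) (fun _ => θ 0))

theorem LW_law (h0 : IsLaw F₀ (θ 0)) (h1 : IsLaw F₁ (θ 1)) (h2 : IsLaw F₂ (θ 2))
    (t : TT m₁ m₂) : IsLaw (LW F₀ F₁ F₂ t) (sW θ t) := by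
  rcases t with i | j | p
  · exact h1
  · exact h2
  · exact h0

theorem IsLaw.int4 {F : Measure ℝ} {s : ℝ} (h : IsLaw F s) : Integrable (fun x : ℝ => x ^ 4) F := by
  have := h.prob
  refine Integrable.mono' ((integrable_const (1 : ℝ)).add h.eighth)
    (by fun_prop) ?_
  filter_upwards with x
  rw [Real.norm_eq_abs, abs_of_nonneg (by positivity)]
  show x ^ 4 ≤ 1 + x ^ 8
  nlinarith [sq_nonneg (x ^ 4 - 1), sq_nonneg (x ^ 4)]

/-- moments of a linear form -/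
theorem lin_model (h : IsModel P F₀ F₁ F₂ u v e) (h0 : IsLaw F₀ (θ 0)) (h1 : IsLaw F₁ (θ 1))
    (h2 : IsLaw F₂ (θ 2)) (K : ℝ) (hK2 : ∀ t : TT m₁ m₂, sW θ t ≤ K)
    (hK4 : ∀ t : TT m₁ m₂, ∫ x, x ^ 4 ∂(LW F₀ F₁ F₂ t) ≤ K ^ 2) (c : TT m₁ m₂ → ℝ) :
    Integrable (fun ω => (∑ t, c t * WW u v e t ω) ^ 4) P ∧
      Integrable (fun ω => (∑ t, c t * WW u v e t ω) ^ 2) P ∧
      ∫ ω, (∑ t, c t * WW u v e t ω) ^ 2 ∂P = ∑ t, c t ^ 2 * sW θ t ∧
      ∫ ω, (∑ t, c t * WW u v e t ω) ^ 4 ∂P ≤ 3 * K ^ 2 * (∑ t, c t ^ 2) ^ 2 := by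
  have L := LW_law (m₁ := m₁) (m₂ := m₂) h0 h1 h2
  have e2 : ∀ t : TT m₁ m₂, ∫ ω, WW u v e t ω ^ 2 ∂P = sW θ t := fun t => by
    rw [WW_int h t (fun x => x ^ 2) (by fun_prop)]; exact (L t).var
  have key := lin_all (WW u v e) (WW_meas h)
    (fun t => WW_integrable h t (fun x => x ^ 4) (by fun_prop) (L t).int4)
    (fun t => by rw [WW_int h t (fun x => x) measurable_id]; exact (L t).mean)
    h.indep K (fun t => by rw [e2]; exact hK2 t)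
    (fun t => by rw [WW_int h t (fun x => x ^ 4) (by fun_prop)]; exact hK4 t) c Finset.univ
  obtain ⟨k1, -, k3, k4⟩ := key
  refine ⟨k1, ?_, ?_, k4⟩
  · have mS : Measurable (fun ω => ∑ t, c t * WW u v e t ω) :=
      Finset.measurable_sum _ fun t _ => (WW_meas h t).const_mul _
    have := int_mono (P := P) mS (measurable_const (a := (0 : ℝ))) k1 (by simp) (a := 2) (b := 0)
      (by norm_num)
    simpa using this
  · rw [k3]
    exact Finset.sum_congr rfl fun t _ => by rw [e2]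

end Pool.Agent.Q39.EB
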